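import Mathlib

/-!
# Building blocks with positive real part
-/

set_option autoImplicit false

open scoped ComplexConjugate

namespace Pool.Agent.LipPeak

/-- `h b z = 1 / (1 - conj b * z)`. -/
noncomputable def h (b z : ℂ) : ℂ := (1 - conj b * z)⁻¹

lemma re_inv (w : ℂ) : ((1 - w)⁻¹).re = (1 - w.re) / ‖1 - w‖ ^ 2 := by
  rw [Complex.inv_re, Complex.normSq_eq_norm_sq]; simp

lemma half_le_re (w : ℂ) (hw : ‖w‖ ≤ 1) (hw1 : w ≠ 1) : 1 / 2 ≤ ((1 - w)⁻¹).re := by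
  rw [re_inv]
  have h1 : ‖1 - w‖ ^ 2 = 1 - 2 * w.re + ‖w‖ ^ 2 := by
    rw [← Complex.normSq_eq_norm_sq, ← Complex.normSq_eq_norm_sq, Complex.normSq_apply,
      Complex.normSq_apply]
    simp; ring
  have h2 : 0 < ‖1 - w‖ ^ 2 := by
    have : 1 - w ≠ 0 := fun h => hw1 (by linear_combination -h)
    positivity
  have h3 : ‖w‖ ^ 2 ≤ 1 := by
    have := norm_nonneg w
    nlinarith
  rw [div_le_div_iff₀ (by norm_num) h2, h1]
  linarith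

lemma re_nonneg (w : ℂ) (hw : ‖w‖ ≤ 1) : 0 ≤ ((1 - w)⁻¹).re := by
  by_cases h : w = 1
  · simp [h]
  · linarith [half_le_re w hw h]

lemma norm_conj_mul_le {b z : ℂ} (hb : ‖b‖ ≤ 1) (hz : ‖z‖ ≤ 1) : ‖conj b * z‖ ≤ 1 := by
  rw [norm_mul, RCLike.norm_conj]
  exact mul_le_one₀ hb (norm_nonneg _) hz

lemma h_re_nonneg {b z : ℂ} (hb : ‖b‖ ≤ 1) (hz : ‖z‖ ≤ 1) : 0 ≤ (h b z).re :=
  re_nonneg _ (norm_conj_mul_le hb hz)

/-- Adding the regular block does not decrease the norm. -/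
lemma norm_add_ge (w : ℂ) (hw : ‖w‖ ≤ 1) (r : ℝ) (hr0 : 0 ≤ r) (hr1 : r ≤ 1) :
    ‖(1 - w)⁻¹‖ ≤ ‖(1 - w)⁻¹ + (1 - (r : ℂ) * w)⁻¹‖ := by
  have hre : w.re ≤ 1 := (Complex.re_le_norm w).trans hw
  have hre' : r * w.re ≤ 1 := by
    nlinarith [abs_le.1 (Complex.abs_re_le_norm w)]
  have key : ∀ A B : ℂ, 0 ≤ A.re * B.re + A.im * B.im → ‖A‖ ≤ ‖A + B‖ := by
    intro A B hAB
    rw [← abs_norm A, ← abs_norm (A + B), ← sq_le_sq, ← Complex.normSq_eq_norm_sq,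
      ← Complex.normSq_eq_norm_sq, Complex.normSq_apply, Complex.normSq_apply]
    simp only [Complex.add_re, Complex.add_im]
    nlinarith [mul_self_nonneg B.re, mul_self_nonneg B.im]
  apply key
  rw [Complex.inv_re, Complex.inv_im, Complex.inv_re, Complex.inv_im]
  have e1 : (1 - w).re = 1 - w.re := by simp
  have e2 : (1 - w).im = -w.im := by simp
  have e3 : (1 - (r : ℂ) * w).re = 1 - r * w.re := by simp
  have e4 : (1 - (r : ℂ) * w).im = -(r * w.im) := by simp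
  rw [e1, e2, e3, e4]
  have n1 := Complex.normSq_nonneg (1 - w)
  have n2 := Complex.normSq_nonneg (1 - (r : ℂ) * w)
  rw [neg_neg, neg_neg, div_mul_div_comm, div_mul_div_comm, ← add_div]
  refine div_nonneg ?_ (mul_nonneg n1 n2)
  have : 0 ≤ (1 - w.re) * (1 - r * w.re) := mul_nonneg (by linarith) (by linarith)
  nlinarith [mul_self_nonneg w.im, mul_nonneg hr0 (mul_self_nonneg w.im)]

lemma norm_one_sub_le (w : ℂ) (hw : ‖w‖ ≤ 1) (r : ℝ) (hr0 : 0 ≤ r) (hr1 : r ≤ 1) :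
    ‖1 - w‖ ≤ 2 * ‖1 - (r : ℂ) * w‖ := by
  have h1 : 1 - r ≤ ‖1 - (r : ℂ) * w‖ := by
    have : ‖(1 : ℂ)‖ - ‖(r : ℂ) * w‖ ≤ ‖1 - (r : ℂ) * w‖ := norm_sub_norm_le _ _
    rw [norm_one, norm_mul, Complex.norm_real, Real.norm_of_nonneg hr0] at this
    nlinarith
  have h2 : ‖1 - w‖ ≤ ‖1 - (r : ℂ) * w‖ + (1 - r) := by
    have e : 1 - w = (1 - (r : ℂ) * w) - ((1 - r : ℝ) : ℂ) * w := by push_cast; ring
    rw [e]
    refine (norm_sub_le _ _).trans ?_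
    rw [norm_mul ((1 - r : ℝ) : ℂ) w, Complex.norm_real, Real.norm_of_nonneg (by linarith : 0 ≤ 1 - r)]
    have : (1 - r) * ‖w‖ ≤ (1 - r) * 1 := mul_le_mul_of_nonneg_left hw (by linarith)
    linarith
  linarith

lemma one_sub_pos (w : ℂ) (hw1 : w ≠ 1) : 0 < ‖1 - w‖ :=
  norm_pos_iff.2 fun h => hw1 (by linear_combination -h)

lemma one_sub_pos' (w : ℂ) (hw : ‖w‖ ≤ 1) (hw1 : w ≠ 1) (r : ℝ) (hr0 : 0 ≤ r) (hr1 : r ≤ 1) :
    0 < ‖1 - (r : ℂ) * w‖ := by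
  have := norm_one_sub_le w hw r hr0 hr1
  have := one_sub_pos w hw1
  linarith

lemma norm_inv_le (w : ℂ) (hw : ‖w‖ ≤ 1) (hw1 : w ≠ 1) (r : ℝ) (hr0 : 0 ≤ r) (hr1 : r ≤ 1) :
    ‖(1 - (r : ℂ) * w)⁻¹‖ ≤ 2 * ‖(1 - w)⁻¹‖ := by
  rw [norm_inv, norm_inv]
  have h1 := norm_one_sub_le w hw r hr0 hr1
  have h2 := one_sub_pos w hw1
  have h3 := one_sub_pos' w hw hw1 r hr0 hr1
  rw [← div_eq_mul_inv, inv_eq_one_div, div_le_div_iff₀ h3 h2]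
  linarith

lemma re_inv_ge (w : ℂ) (hw : ‖w‖ ≤ 1) (hw1 : w ≠ 1) (r : ℝ) (hr0 : 0 ≤ r) (hr1 : r ≤ 1) :
    (1 - r) / ‖1 - (r : ℂ) * w‖ ^ 2 ≤ ((1 - (r : ℂ) * w)⁻¹).re := by
  rw [re_inv]
  have h3 := one_sub_pos' w hw hw1 r hr0 hr1
  refine div_le_div_of_nonneg_right ?_ (by positivity)
  have hre : w.re ≤ 1 := (Complex.re_le_norm w).trans hw
  have : ((r : ℂ) * w).re = r * w.re := by simp
  rw [this]
  nlinarith

end Pool.Agent.LipPeak
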