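import Mathlib

/-!
# Lipschitz classes of analytic functions on the disc and their peak sets
-/

set_option autoImplicit false

namespace Pool.Agent.LipPeak

/-- The class `A_α`: `f` is analytic in the open unit disc, continuous on the closed disc, and
`|f ζ₁ - f ζ₂| ≤ C |ζ₁ - ζ₂| ^ α` on the unit circle. -/
def LipClass (α : ℝ) (f : ℂ → ℂ) : Prop :=
  DifferentiableOn ℂ f (Metric.ball 0 1) ∧ ContinuousOn f (Metric.closedBall 0 1) ∧
  ∃ C : ℝ, ∀ ζ₁ ∈ Metric.sphere (0 : ℂ) 1, ∀ ζ₂ ∈ Metric.sphere (0 : ℂ) 1,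
    ‖f ζ₁ - f ζ₂‖ ≤ C * ‖ζ₁ - ζ₂‖ ^ α

/-- `E` is a peak set for `A_α`: a closed subset of the unit circle such that some `f` in `A_α`
is `1` on `E` and has modulus less than `1` on the rest of the circle. -/
def IsPeakSet (α : ℝ) (E : Set ℂ) : Prop :=
  IsClosed E ∧ E ⊆ Metric.sphere 0 1 ∧
  ∃ f : ℂ → ℂ, LipClass α f ∧ (∀ ζ ∈ E, f ζ = 1) ∧ ∀ ζ ∈ Metric.sphere (0 : ℂ) 1 \ E, ‖f ζ‖ < 1

end Pool.Agent.LipPeak
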