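import Mathlib
import Pool.Agent.LipPeak.Block

/-!
# The three-term lower bound
-/

set_option autoImplicit false

open scoped ComplexConjugate

namespace Pool.Agent.LipPeak

lemma norm_one_sub_conj_mul (a z : ℂ) (ha : ‖a‖ = 1) : ‖1 - conj a * z‖ = ‖z - a‖ := by
  have h1 : conj a * a = 1 := by
    rw [mul_comm, Complex.mul_conj, Complex.normSq_eq_norm_sq, ha]; simp
  have e : 1 - conj a * z = -(conj a * (z - a)) := by linear_combination -h1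
  rw [e, norm_neg, norm_mul, RCLike.norm_conj, ha, one_mul]

lemma conj_mul_ne_one (a z : ℂ) (ha : ‖a‖ = 1) (hza : z ≠ a) : conj a * z ≠ 1 := by
  intro h
  have := norm_one_sub_conj_mul a z ha
  rw [h, sub_self, norm_zero] at this
  exact hza (sub_eq_zero.1 (norm_eq_zero.1 this.symm))

lemma h_inner (a z : ℂ) (ρ : ℝ) :
    h (((1 - ρ : ℝ) : ℂ) * a) z = (1 - ((1 - ρ : ℝ) : ℂ) * (conj a * z))⁻¹ := by
  rw [h, map_mul, Complex.conj_ofReal, mul_assoc]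

lemma norm_h (a z : ℂ) (ha : ‖a‖ = 1) : ‖h a z‖ = 1 / ‖z - a‖ := by
  rw [h, norm_inv, norm_one_sub_conj_mul a z ha, one_div]

lemma norm_h_inner_le (a z : ℂ) (ha : ‖a‖ = 1) (hz : ‖z‖ ≤ 1) (hza : z ≠ a) (ρ : ℝ) (hρ : 0 ≤ ρ)
    (hρ1 : ρ ≤ 1) : ‖h (((1 - ρ : ℝ) : ℂ) * a) z‖ ≤ 2 * (1 / ‖z - a‖) := by
  rw [h_inner, ← norm_h a z ha, h]
  exact norm_inv_le _ (norm_conj_mul_le ha.le hz) (conj_mul_ne_one a z ha hza) _ (by linarith)
    (by linarith)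

lemma three_term (z a : ℂ) (ρ P : ℝ) (hz : ‖z‖ ≤ 1) (ha : ‖a‖ = 1) (hz1 : z ≠ 1)
    (hza : z ≠ a) (hρ : 0 < ρ) (hρP : ρ ≤ P) (hρ1 : ρ ≤ 1) (hP1 : P ≤ ‖1 - a‖)
    (hP3 : ‖1 - a‖ ≤ 3 * P) :
    (1 / 1280) * (1 / ‖1 - z‖ + (ρ / (32 * P)) / ‖z - a‖) ≤
      ‖h 1 z + ((ρ / (32 * P) : ℝ) : ℂ) * (h a z + h (((1 - ρ : ℝ) : ℂ) * a) z)‖ := by
  have hP : 0 < P := lt_of_lt_of_le hρ hρP
  set μ : ℝ := ρ / (32 * P) with hμ
  have hμ0 : 0 < μ := by positivity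
  have hμ1 : μ ≤ 1 / 32 := by
    rw [hμ, div_le_div_iff₀ (by positivity) (by norm_num)]; linarith
  have hμP : μ * P = ρ / 32 := by rw [hμ]; field_simp
  set w := conj a * z with hw
  have hw1 : w ≠ 1 := conj_mul_ne_one a z ha hza
  have hwn : ‖w‖ ≤ 1 := norm_conj_mul_le ha.le hz
  have ht : ‖1 - w‖ = ‖z - a‖ := norm_one_sub_conj_mul a z ha
  have htpos : 0 < ‖z - a‖ := by rw [← ht]; exact one_sub_pos w hw1
  have hD : 0 < ‖1 - z‖ := one_sub_pos z hz1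
  have e1 : h 1 z = (1 - z)⁻¹ := by simp [h]
  have e2 : h a z = (1 - w)⁻¹ := rfl
  rw [e1, e2, h_inner, ← hw]
  set r : ℝ := 1 - ρ with hr
  have hr0 : 0 ≤ r := by rw [hr]; linarith
  have hr1 : r ≤ 1 := by rw [hr]; linarith
  set B := (1 - w)⁻¹ + (1 - (r : ℂ) * w)⁻¹ with hB
  have hB1 : 1 / ‖z - a‖ ≤ ‖B‖ := by
    rw [← ht, one_div, ← norm_inv]
    exact norm_add_ge w hwn r hr0 hr1
  have hB3 : ‖B‖ ≤ 3 * (1 / ‖z - a‖) := by
    have h1 := norm_inv_le w hwn hw1 r hr0 hr1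
    have h2 : ‖(1 - w)⁻¹‖ = 1 / ‖z - a‖ := by rw [norm_inv, ht, one_div]
    calc ‖B‖ ≤ ‖(1 - w)⁻¹‖ + ‖(1 - (r : ℂ) * w)⁻¹‖ := norm_add_le _ _
      _ ≤ 3 * (1 / ‖z - a‖) := by rw [h2] at h1 ⊢; linarith
  have hμB : ‖((μ : ℝ) : ℂ) * B‖ = μ * ‖B‖ := by
    rw [norm_mul, Complex.norm_real, Real.norm_of_nonneg hμ0.le]
  have hu : ‖(1 - z)⁻¹‖ = 1 / ‖1 - z‖ := by rw [norm_inv, one_div]
  set u := 1 / ‖1 - z‖ with hudef
  set v := μ / ‖z - a‖ with hvdef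
  have hu0 : 0 < u := by positivity
  have hv0 : 0 < v := by positivity
  have hv1 : v ≤ μ * ‖B‖ := by
    rw [hvdef, div_eq_mul_one_div]
    exact mul_le_mul_of_nonneg_left hB1 hμ0.le
  have hv3 : μ * ‖B‖ ≤ 3 * v := by
    rw [hvdef, div_eq_mul_one_div]
    calc μ * ‖B‖ ≤ μ * (3 * (1 / ‖z - a‖)) := mul_le_mul_of_nonneg_left hB3 hμ0.le
      _ = _ := by ring
  by_cases hA : 4 * u ≤ v
  · have h1 : ‖((μ : ℝ) : ℂ) * B‖ ≤ ‖(1 - z)⁻¹ + ((μ : ℝ) : ℂ) * B‖ + ‖(1 - z)⁻¹‖ := by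
      have := norm_sub_le ((1 - z)⁻¹ + ((μ : ℝ) : ℂ) * B) ((1 - z)⁻¹)
      rwa [add_sub_cancel_left] at this
    rw [hμB, hu] at h1
    linarith
  · by_cases hBc : 4 * v ≤ u
    · have h1 : ‖(1 - z)⁻¹‖ ≤ ‖(1 - z)⁻¹ + ((μ : ℝ) : ℂ) * B‖ + ‖((μ : ℝ) : ℂ) * B‖ := by
        have := norm_sub_le ((1 - z)⁻¹ + ((μ : ℝ) : ℂ) * B) (((μ : ℝ) : ℂ) * B)
        rwa [add_sub_cancel_right] at this
      rw [hμB, hu] at h1
      linarith
    · rw [not_le] at hA hBc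
      -- t < 4 μ D
      have h1 : ‖z - a‖ < 4 * μ * ‖1 - z‖ := by
        rw [hudef, hvdef, ← mul_div_assoc, div_lt_div_iff₀ hD htpos] at hBc
        linarith
      have h2 : ‖1 - z‖ ≤ ‖1 - a‖ + ‖z - a‖ := by
        have e : 1 - z = (1 - a) - (z - a) := by ring
        rw [e]; exact norm_sub_le _ _
      have h3 : ‖1 - a‖ ≤ ‖1 - z‖ + ‖z - a‖ := by
        have e : 1 - a = (1 - z) + (z - a) := by ring
        rw [e]; exact norm_add_le _ _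
      have h4 : ‖z - a‖ ≤ ρ / 2 := by
        have h5 : 4 * μ * ‖1 - z‖ ≤ 4 * μ * (3 * P + ‖z - a‖) :=
          mul_le_mul_of_nonneg_left (by linarith) (by positivity)
        have h6 : 4 * μ * (3 * P + ‖z - a‖) = 12 * (μ * P) + 4 * (μ * ‖z - a‖) := by ring
        have h7 : μ * ‖z - a‖ ≤ 1 / 32 * ‖z - a‖ := mul_le_mul_of_nonneg_right hμ1 htpos.le
        rw [h6, hμP] at h5
        linarith
      have h8 : ‖1 - (r : ℂ) * w‖ ≤ 3 / 2 * ρ := by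
        have e : 1 - (r : ℂ) * w = (1 - w) + ((ρ : ℝ) : ℂ) * w := by rw [hr]; push_cast; ring
        rw [e]
        refine (norm_add_le _ _).trans ?_
        rw [ht, norm_mul, Complex.norm_real, Real.norm_of_nonneg hρ.le]
        have : ρ * ‖w‖ ≤ ρ * 1 := mul_le_mul_of_nonneg_left hwn hρ.le
        linarith
      have h9 := re_inv_ge w hwn hw1 r hr0 hr1
      have h10 : 0 < ‖1 - (r : ℂ) * w‖ := one_sub_pos' w hwn hw1 r hr0 hr1
      have h11 : (4 / 9) / ρ ≤ (1 - r) / ‖1 - (r : ℂ) * w‖ ^ 2 := by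
        have e : 1 - r = ρ := by rw [hr]; ring
        rw [e, div_le_div_iff₀ hρ (by positivity)]
        nlinarith
      have h12 : 0 ≤ ((1 - z)⁻¹).re := re_nonneg z hz
      have h13 : 0 ≤ ((1 - w)⁻¹).re := re_nonneg w hwn
      have h14 : μ * ((4 / 9) / ρ) ≤ ((1 - z)⁻¹ + ((μ : ℝ) : ℂ) * B).re := by
        rw [Complex.add_re, Complex.re_ofReal_mul, hB, Complex.add_re]
        have : μ * ((4 / 9) / ρ) ≤ μ * (((1 - w)⁻¹).re + ((1 - (r : ℂ) * w)⁻¹).re) :=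
          mul_le_mul_of_nonneg_left (by linarith) hμ0.le
        linarith
      have h15 : μ * ((4 / 9) / ρ) = 1 / (72 * P) := by
        rw [hμ]; field_simp; norm_num
      have h16 : P / 2 ≤ ‖1 - z‖ := by linarith
      have h17 : u ≤ 2 / P := by
        rw [hudef, div_le_div_iff₀ hD hP]; linarith
      have h18 : (1 / 1280) * (u + v) ≤ 1 / (128 * P) := by
        have : (1 / 1280) * (u + v) ≤ (1 / 1280) * (5 * (2 / P)) := by
          refine mul_le_mul_of_nonneg_left ?_ (by norm_num)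
          linarith
        refine this.trans (le_of_eq ?_)
        field_simp; norm_num
      have h19 : 1 / (128 * P) ≤ 1 / (72 * P) :=
        one_div_le_one_div_of_le (by positivity) (by linarith)
      calc (1 / 1280) * (u + v) ≤ 1 / (72 * P) := h18.trans h19
        _ ≤ ((1 - z)⁻¹ + ((μ : ℝ) : ℂ) * B).re := by rw [← h15]; exact h14
        _ ≤ _ := Complex.re_le_norm _

end Pool.Agent.LipPeak
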