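import Mathlib
import Pool.Agent.LipPeak.Defs
import Pool.Agent.LipPeak.Block
import Pool.Agent.LipPeak.Three

/-!
# A criterion for peak sets
-/

set_option autoImplicit false

open scoped ComplexConjugate Topology
open Filter Set

namespace Pool.Agent.LipPeak

/-- The data of the construction. -/
structure Config (ι : Type) (α : ℝ) where
  a : ι → ℂ
  ρ : ι → ℝ
  norm_a : ∀ i, ‖a i‖ = 1
  ρ_pos : ∀ i, 0 < ρ i
  ρ_le : ∀ i, ρ i ≤ 1
  lo : ∀ i, ρ i ^ α ≤ ‖1 - a i‖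
  hi : ∀ i, ‖1 - a i‖ ≤ 3 * ρ i ^ α
  summ : Summable fun i => ρ i ^ (1 - α)
  sep : ∀ z : ℂ, ‖z‖ ≤ 1 → z ≠ 1 → (∀ i, z ≠ a i) → ∃ n : ι, ∀ S : Finset ι, n ∉ S →
    ∑ m ∈ S, (ρ m ^ (1 - α) / 32) / ‖z - a m‖ ≤ (1 / 7680) / ‖1 - z‖

variable {ι : Type} {α : ℝ}

namespace Config

variable (c : Config ι α)

/-- The masses. -/
noncomputable def μ (i : ι) : ℝ := c.ρ i ^ (1 - α) / 32

/-- The set `{1} ∪ {a i}`. -/
def E : Set ℂ := insert 1 (range c.a)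

lemma μ_pos (i : ι) : 0 < c.μ i := div_pos (Real.rpow_pos_of_pos (c.ρ_pos i) _) (by norm_num)

lemma μ_summ : Summable c.μ := c.summ.div_const _

lemma μ_eq (i : ι) : c.μ i = c.ρ i / (32 * c.ρ i ^ α) := by
  rw [μ, Real.rpow_sub (c.ρ_pos i), Real.rpow_one]
  have : c.ρ i ^ α ≠ 0 := (Real.rpow_pos_of_pos (c.ρ_pos i) _).ne'
  field_simp

/-- The term attached to `i`. -/
noncomputable def Φ (i : ι) (z : ℂ) : ℂ :=
  ((c.μ i : ℝ) : ℂ) * (h (c.a i) z + h (((1 - c.ρ i : ℝ) : ℂ) * c.a i) z)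

/-- The function with positive real part. -/
noncomputable def F (z : ℂ) : ℂ := h 1 z + ∑' i, c.Φ i z

lemma tendsto_ρ (h0 : 0 < α) (h1 : α < 1) : Tendsto (fun i => c.ρ i ^ α) cofinite (𝓝 0) := by
  have h2 := c.summ.tendsto_cofinite_zero
  have hα : 0 < 1 - α := by linarith
  have hpos : 0 < α / (1 - α) := div_pos h0 hα
  have h3 : Tendsto (fun i => (c.ρ i ^ (1 - α)) ^ (α / (1 - α))) cofinite
      (𝓝 ((0 : ℝ) ^ (α / (1 - α)))) :=
    (Real.continuousAt_rpow_const _ _ (Or.inr hpos.le)).tendsto.comp h2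
  rw [Real.zero_rpow hpos.ne'] at h3
  refine h3.congr fun i => ?_
  rw [← Real.rpow_mul (c.ρ_pos i).le, mul_div_cancel₀ _ hα.ne']

lemma tendsto_a (h0 : 0 < α) (h1 : α < 1) : Tendsto c.a cofinite (𝓝 1) := by
  rw [tendsto_iff_norm_sub_tendsto_zero]
  have h2 : Tendsto (fun i => 3 * c.ρ i ^ α) cofinite (𝓝 0) := by
    simpa using (c.tendsto_ρ h0 h1).const_mul 3
  refine squeeze_zero (fun _ => norm_nonneg _) (fun i => ?_) h2
  rw [norm_sub_rev]; exact c.hi i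

lemma isCompact_E (h0 : 0 < α) (h1 : α < 1) : IsCompact c.E :=
  (c.tendsto_a h0 h1).isCompact_insert_range_of_cofinite

lemma E_subset : c.E ⊆ Metric.sphere 0 1 := by
  intro z hz
  rcases hz with rfl | ⟨i, rfl⟩
  · simp
  · simpa using c.norm_a i

lemma E_nonempty : c.E.Nonempty := ⟨1, Or.inl rfl⟩

/-- Distance to `E`. -/
noncomputable def d (z : ℂ) : ℝ := Metric.infDist z c.E

lemma d_pos (h0 : 0 < α) (h1 : α < 1) {z : ℂ} (hz : z ∉ c.E) : 0 < c.d z :=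
  ((c.isCompact_E h0 h1).isClosed.notMem_iff_infDist_pos c.E_nonempty).1 hz

lemma d_le_one (z : ℂ) : c.d z ≤ ‖1 - z‖ := by
  have := Metric.infDist_le_dist_of_mem (x := z) (show (1 : ℂ) ∈ c.E from Or.inl rfl)
  rwa [dist_eq_norm, norm_sub_rev] at this

lemma d_le_a (z : ℂ) (i : ι) : c.d z ≤ ‖z - c.a i‖ := by
  have := Metric.infDist_le_dist_of_mem (x := z) (show c.a i ∈ c.E from Or.inr ⟨i, rfl⟩)
  rwa [dist_eq_norm] at this

lemma ne_one {z : ℂ} (hz : z ∉ c.E) : z ≠ 1 := fun h => hz (Or.inl h)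

lemma ne_a {z : ℂ} (hz : z ∉ c.E) (i : ι) : z ≠ c.a i := fun h => hz (Or.inr ⟨i, h.symm⟩)

lemma summ_div (h0 : 0 < α) (h1 : α < 1) {z : ℂ} (hz : z ∉ c.E) :
    Summable fun i => c.μ i / ‖z - c.a i‖ := by
  have hd := c.d_pos h0 h1 hz
  refine Summable.of_nonneg_of_le (fun i => div_nonneg (c.μ_pos i).le (norm_nonneg _)) (fun i => ?_)
    (c.μ_summ.div_const (c.d z))
  exact div_le_div_of_nonneg_left (c.μ_pos i).le hd (c.d_le_a z i)

lemma norm_Φ_le {z : ℂ} (hz1 : ‖z‖ ≤ 1) (hz : z ∉ c.E) (i : ι) :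
    ‖c.Φ i z‖ ≤ 3 * (c.μ i / ‖z - c.a i‖) := by
  rw [Φ, norm_mul, Complex.norm_real, Real.norm_of_nonneg (c.μ_pos i).le]
  have e1 := norm_h (c.a i) z (c.norm_a i)
  have e2 := norm_h_inner_le (c.a i) z (c.norm_a i) hz1 (c.ne_a hz i) (c.ρ i) (c.ρ_pos i).le
    (c.ρ_le i)
  calc c.μ i * ‖h (c.a i) z + h (((1 - c.ρ i : ℝ) : ℂ) * c.a i) z‖
      ≤ c.μ i * (3 * (1 / ‖z - c.a i‖)) := by
        refine mul_le_mul_of_nonneg_left ?_ (c.μ_pos i).le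
        refine (norm_add_le _ _).trans ?_
        rw [e1]; linarith
    _ = 3 * (c.μ i / ‖z - c.a i‖) := by ring

lemma summ_norm_Φ (h0 : 0 < α) (h1 : α < 1) {z : ℂ} (hz1 : ‖z‖ ≤ 1) (hz : z ∉ c.E) :
    Summable fun i => ‖c.Φ i z‖ :=
  Summable.of_nonneg_of_le (fun _ => norm_nonneg _) (c.norm_Φ_le hz1 hz)
    ((c.summ_div h0 h1 hz).mul_left 3)

lemma summ_Φ (h0 : 0 < α) (h1 : α < 1) {z : ℂ} (hz1 : ‖z‖ ≤ 1) (hz : z ∉ c.E) :
    Summable fun i => c.Φ i z := (c.summ_norm_Φ h0 h1 hz1 hz).of_norm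

lemma re_Φ_nonneg {z : ℂ} (hz1 : ‖z‖ ≤ 1) (i : ι) : 0 ≤ (c.Φ i z).re := by
  rw [Φ, Complex.re_ofReal_mul, Complex.add_re]
  refine mul_nonneg (c.μ_pos i).le (add_nonneg (h_re_nonneg (c.norm_a i).le hz1)
    (h_re_nonneg ?_ hz1))
  rw [norm_mul, c.norm_a, mul_one, Complex.norm_real, Real.norm_eq_abs, abs_le]
  have := c.ρ_pos i
  have := c.ρ_le i
  constructor <;> linarith

lemma half_le_re_F (h0 : 0 < α) (h1 : α < 1) {z : ℂ} (hz1 : ‖z‖ ≤ 1) (hz : z ∉ c.E) :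
    1 / 2 ≤ (c.F z).re := by
  rw [F, Complex.add_re, Complex.re_tsum (c.summ_Φ h0 h1 hz1 hz)]
  have e1 : 1 / 2 ≤ (h 1 z).re := by
    have := half_le_re z hz1 (c.ne_one hz)
    simpa [h] using this
  have e2 : 0 ≤ ∑' i, (c.Φ i z).re := tsum_nonneg fun i => c.re_Φ_nonneg hz1 i
  linarith

lemma F_ne_zero (h0 : 0 < α) (h1 : α < 1) {z : ℂ} (hz1 : ‖z‖ ≤ 1) (hz : z ∉ c.E) :
    c.F z ≠ 0 := by
  intro h
  have := c.half_le_re_F h0 h1 hz1 hz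
  rw [h, Complex.zero_re] at this
  linarith

/-- The sum of absolute values. -/
noncomputable def Sg (z : ℂ) : ℝ := 1 / ‖1 - z‖ + ∑' i, 3 * (c.μ i / ‖z - c.a i‖)

/-- No cancellation. -/
lemma F_ge (h0 : 0 < α) (h1 : α < 1) {z : ℂ} (hz1 : ‖z‖ ≤ 1) (hz : z ∉ c.E) :
    (1 / 10240) * c.Sg z ≤ ‖c.F z‖ := by
  classical
  obtain ⟨n, hn⟩ := c.sep z hz1 (c.ne_one hz) (c.ne_a hz)
  have hρα : 0 < c.ρ n ^ α := Real.rpow_pos_of_pos (c.ρ_pos n) _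
  have hle : c.ρ n ≤ c.ρ n ^ α := by
    calc c.ρ n = c.ρ n ^ (1 : ℝ) := (Real.rpow_one _).symm
      _ ≤ c.ρ n ^ α := Real.rpow_le_rpow_of_exponent_ge (c.ρ_pos n) (c.ρ_le n) h1.le
  have h3 := three_term z (c.a n) (c.ρ n) (c.ρ n ^ α) hz1 (c.norm_a n) (c.ne_one hz)
    (c.ne_a hz n) (c.ρ_pos n) hle (c.ρ_le n) (c.lo n) (c.hi n)
  rw [← c.μ_eq n] at h3
  have hs := c.summ_div h0 h1 hz
  set u := 1 / ‖1 - z‖ with hu
  set v := c.μ n / ‖z - c.a n‖ with hv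
  have hu0 : 0 < u := by
    rw [hu]; exact one_div_pos.2 (one_sub_pos z (c.ne_one hz))
  have hv0 : 0 ≤ v := div_nonneg (c.μ_pos n).le (norm_nonneg _)
  -- the rest
  set f : ι → ℝ := fun m => if m = n then 0 else c.μ m / ‖z - c.a m‖ with hf
  have hfs : Summable f := by
    refine Summable.of_nonneg_of_le (fun m => ?_) (fun m => ?_) hs
    · simp only [hf]; split_ifs
      · exact le_rfl
      · exact div_nonneg (c.μ_pos m).le (norm_nonneg _)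
    · simp only [hf]; split_ifs
      · exact div_nonneg (c.μ_pos m).le (norm_nonneg _)
      · exact le_rfl
  have hS : ∑' m, f m ≤ (1 / 7680) * u := by
    refine hfs.tsum_le_of_sum_le fun S => ?_
    have e1 : ∑ m ∈ S, f m = ∑ m ∈ S.erase n, c.μ m / ‖z - c.a m‖ := by
      rw [← Finset.sum_erase S (a := n) (f := f) (by simp [hf])]
      refine Finset.sum_congr rfl fun m hm => ?_
      simp only [hf, if_neg (Finset.ne_of_mem_erase hm)]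
    rw [e1]
    have := hn (S.erase n) (Finset.notMem_erase n S)
    rw [hu, mul_one_div]
    exact this
  have e2 : ∑' i, 3 * (c.μ i / ‖z - c.a i‖) = 3 * v + 3 * ∑' m, f m := by
    rw [tsum_mul_left, hs.tsum_eq_add_tsum_ite n]
    ring
  have hΦ := c.summ_Φ h0 h1 hz1 hz
  have e3 : c.F z = (h 1 z + c.Φ n z) + ∑' m, if m = n then 0 else c.Φ m z := by
    rw [F, hΦ.tsum_eq_add_tsum_ite n]; ring
  have h4 : ‖∑' m, (if m = n then 0 else c.Φ m z)‖ ≤ 3 * ∑' m, f m := by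
    rw [← tsum_mul_left]
    have hb : ∀ m, ‖(if m = n then 0 else c.Φ m z)‖ ≤ 3 * f m := by
      intro m
      simp only [hf]; split_ifs
      · simp
      · exact c.norm_Φ_le hz1 hz m
    exact tsum_of_norm_bounded (hfs.mul_left 3).hasSum hb
  have h5 : ‖h 1 z + c.Φ n z‖ ≤ ‖c.F z‖ + ‖∑' m, (if m = n then 0 else c.Φ m z)‖ := by
    have := norm_sub_le (c.F z) (∑' m, (if m = n then 0 else c.Φ m z))
    rwa [e3, add_sub_cancel_right, ← e3] at this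
  have h6 : (1 / 1280) * (u + v) ≤ ‖h 1 z + c.Φ n z‖ := h3
  rw [Sg, e2, ← hu]
  linarith

end Config

end Pool.Agent.LipPeak
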