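import Mathlib
import Pool.Agent.LipPeak.Defs
import Pool.Agent.LipPeak.Block
import Pool.Agent.LipPeak.Three
import Pool.Agent.LipPeak.Abstract

/-!
# The peak function of a configuration
-/

set_option autoImplicit false

open scoped ComplexConjugate Topology
open Filter Set

namespace Pool.Agent.LipPeak

variable {ι : Type} {α : ℝ}

namespace Config

variable (c : Config ι α)

lemma Sg_pos {z : ℂ} (hz : z ∉ c.E) : 0 < c.Sg z := by
  have hu0 : 0 < 1 / ‖1 - z‖ := one_div_pos.2 (one_sub_pos z (c.ne_one hz))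
  have : 0 ≤ ∑' i, 3 * (c.μ i / ‖z - c.a i‖) :=
    tsum_nonneg fun i => mul_nonneg (by norm_num) (div_nonneg (c.μ_pos i).le (norm_nonneg _))
  rw [Sg]; linarith

lemma F_ge_one (h0 : 0 < α) (h1 : α < 1) {z : ℂ} (hz1 : ‖z‖ ≤ 1) (hz : z ∉ c.E) :
    (1 / 10240) * (1 / ‖1 - z‖) ≤ ‖c.F z‖ := by
  refine le_trans ?_ (c.F_ge h0 h1 hz1 hz)
  refine mul_le_mul_of_nonneg_left ?_ (by norm_num)
  have : 0 ≤ ∑' i, 3 * (c.μ i / ‖z - c.a i‖) :=
    tsum_nonneg fun i => mul_nonneg (by norm_num) (div_nonneg (c.μ_pos i).le (norm_nonneg _))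
  rw [Sg]; linarith

lemma F_ge_a (h0 : 0 < α) (h1 : α < 1) {z : ℂ} (hz1 : ‖z‖ ≤ 1) (hz : z ∉ c.E) (i : ι) :
    (1 / 10240) * (3 * (c.μ i / ‖z - c.a i‖)) ≤ ‖c.F z‖ := by
  refine le_trans ?_ (c.F_ge h0 h1 hz1 hz)
  refine mul_le_mul_of_nonneg_left ?_ (by norm_num)
  have hs := (c.summ_div h0 h1 hz).mul_left 3
  have h2 := hs.le_tsum i fun j _ =>
    mul_nonneg (by norm_num) (div_nonneg (c.μ_pos j).le (norm_nonneg _))
  have hu0 : 0 < 1 / ‖1 - z‖ := one_div_pos.2 (one_sub_pos z (c.ne_one hz))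
  rw [Sg]; linarith

lemma self_le_two_rpow (h0 : 0 < α) (h1 : α < 1) (t : ℝ) (ht : 0 < t) (ht2 : t ≤ 2) :
    t ≤ 2 * t ^ α := by
  have e : t = t ^ (1 - α) * t ^ α := by
    rw [← Real.rpow_add ht, sub_add_cancel, Real.rpow_one]
  have h2 : t ^ (1 - α) ≤ 2 := by
    calc t ^ (1 - α) ≤ 2 ^ (1 - α) := Real.rpow_le_rpow ht.le ht2 (by linarith)
      _ ≤ 2 ^ (1 : ℝ) := Real.rpow_le_rpow_of_exponent_le (by norm_num) (by linarith)
      _ = 2 := Real.rpow_one _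
  calc t = t ^ (1 - α) * t ^ α := e
    _ ≤ 2 * t ^ α := mul_le_mul_of_nonneg_right h2 (Real.rpow_nonneg ht.le _)

/-- Hölder vanishing of `1 / F` on `E`. -/
lemma inv_F_le (h0 : 0 < α) (h1 : α < 1) {z : ℂ} (hz1 : ‖z‖ ≤ 1) (hz : z ∉ c.E) (e : ℂ)
    (he : e ∈ c.E) : ‖(c.F z)⁻¹‖ ≤ 112640 * ‖z - e‖ ^ α := by
  have hF : 0 < ‖c.F z‖ := norm_pos_iff.2 (c.F_ne_zero h0 h1 hz1 hz)
  have hD : 0 < ‖1 - z‖ := one_sub_pos z (c.ne_one hz)
  have hD2 : ‖1 - z‖ ≤ 2 := by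
    calc ‖1 - z‖ ≤ ‖(1 : ℂ)‖ + ‖z‖ := norm_sub_le _ _
      _ ≤ 2 := by rw [norm_one]; linarith
  have key1 : ‖(c.F z)⁻¹‖ ≤ 10240 * ‖1 - z‖ := by
    have h2 := c.F_ge_one h0 h1 hz1 hz
    rw [norm_inv, inv_eq_one_div, div_le_iff₀ hF]
    calc (1 : ℝ) = 10240 * ‖1 - z‖ * ((1 / 10240) * (1 / ‖1 - z‖)) := by field_simp
      _ ≤ 10240 * ‖1 - z‖ * ‖c.F z‖ := mul_le_mul_of_nonneg_left h2 (by positivity)
  rcases he with rfl | ⟨i, rfl⟩
  · have e1 : ‖z - 1‖ = ‖1 - z‖ := norm_sub_rev _ _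
    rw [e1]
    have h3 := self_le_two_rpow h0 h1 _ hD hD2
    have h4 : 0 ≤ ‖1 - z‖ ^ α := Real.rpow_nonneg hD.le _
    linarith
  · set t := ‖z - c.a i‖ with ht
    have ht0 : 0 < t := norm_pos_iff.2 (sub_ne_zero.2 (c.ne_a hz i))
    have ht2 : t ≤ 2 := by
      calc t ≤ ‖z‖ + ‖c.a i‖ := norm_sub_le _ _
        _ ≤ 2 := by rw [c.norm_a]; linarith
    have h4 : 0 ≤ t ^ α := Real.rpow_nonneg ht0.le _
    by_cases htρ : t ≤ c.ρ i
    · have h2 := c.F_ge_a h0 h1 hz1 hz i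
      have hρ1 : t ^ (1 - α) ≤ c.ρ i ^ (1 - α) := Real.rpow_le_rpow ht0.le htρ (by linarith)
      have e1 : t = t ^ (1 - α) * t ^ α := by
        rw [← Real.rpow_add ht0, sub_add_cancel, Real.rpow_one]
      have h5 : t ≤ c.ρ i ^ (1 - α) * t ^ α := by
        calc t = t ^ (1 - α) * t ^ α := e1
          _ ≤ _ := mul_le_mul_of_nonneg_right hρ1 h4
      have hμ : c.ρ i ^ (1 - α) = 32 * c.μ i := by rw [μ]; ring
      rw [hμ] at h5
      rw [norm_inv, inv_eq_one_div, div_le_iff₀ hF]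
      have h6 : (1 : ℝ) ≤ (32 * c.μ i * t ^ α) / t := by
        rw [le_div_iff₀ ht0]; linarith
      calc (1 : ℝ) ≤ (32 * c.μ i * t ^ α) / t := h6
        _ = (32 * 10240 / 3) * t ^ α * ((1 / 10240) * (3 * (c.μ i / t))) := by ring
        _ ≤ (32 * 10240 / 3) * t ^ α * ‖c.F z‖ :=
            mul_le_mul_of_nonneg_left h2 (by positivity)
        _ ≤ 112640 * t ^ α * ‖c.F z‖ := by
            refine mul_le_mul_of_nonneg_right ?_ hF.le
            refine mul_le_mul_of_nonneg_right (by norm_num) h4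
    · rw [not_le] at htρ
      have h5 : ‖1 - z‖ ≤ ‖1 - c.a i‖ + t := by
        have e : 1 - z = (1 - c.a i) - (z - c.a i) := by ring
        rw [e]; exact norm_sub_le _ _
      have h6 := c.hi i
      have h7 : c.ρ i ^ α ≤ t ^ α := Real.rpow_le_rpow (c.ρ_pos i).le htρ.le h0.le
      have h8 := self_le_two_rpow h0 h1 t ht0 ht2
      linarith

lemma h_sub (b z z' : ℂ) (hb : 1 - conj b * z ≠ 0) (hb' : 1 - conj b * z' ≠ 0) :
    h b z' - h b z = conj b * (z' - z) * h b z * h b z' := by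
  rw [h, h]
  field_simp
  ring

lemma norm_h_sub_le (b z z' : ℂ) (hbn : ‖b‖ ≤ 1) (hb : 1 - conj b * z ≠ 0)
    (hb' : 1 - conj b * z' ≠ 0) : ‖h b z' - h b z‖ ≤ ‖z' - z‖ * (‖h b z‖ * ‖h b z'‖) := by
  rw [h_sub b z z' hb hb', norm_mul, norm_mul, norm_mul, RCLike.norm_conj]
  calc ‖b‖ * ‖z' - z‖ * ‖h b z‖ * ‖h b z'‖ = ‖b‖ * (‖z' - z‖ * (‖h b z‖ * ‖h b z'‖)) := by ring
    _ ≤ 1 * (‖z' - z‖ * (‖h b z‖ * ‖h b z'‖)) :=
        mul_le_mul_of_nonneg_right hbn (by positivity)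
    _ = _ := one_mul _

lemma norm_Φ_sub_le (h0 : 0 < α) (h1 : α < 1) {z z' : ℂ} (hz1 : ‖z‖ ≤ 1) (hz : z ∉ c.E)
    (hz1' : ‖z'‖ ≤ 1) (hz' : z' ∉ c.E) (i : ι) :
    ‖c.Φ i z' - c.Φ i z‖ ≤ ‖z' - z‖ * (2 / c.d z') * (3 * (c.μ i / ‖z - c.a i‖)) := by
  have hd := c.d_pos h0 h1 hz'
  have hza : 0 < ‖z - c.a i‖ := norm_pos_iff.2 (sub_ne_zero.2 (c.ne_a hz i))
  have hza' : 0 < ‖z' - c.a i‖ := norm_pos_iff.2 (sub_ne_zero.2 (c.ne_a hz' i))
  have n1 : 1 - conj (c.a i) * z ≠ 0 := by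
    rw [← norm_pos_iff, norm_one_sub_conj_mul _ _ (c.norm_a i)]; exact hza
  have n1' : 1 - conj (c.a i) * z' ≠ 0 := by
    rw [← norm_pos_iff, norm_one_sub_conj_mul _ _ (c.norm_a i)]; exact hza'
  have hr0 : 0 ≤ 1 - c.ρ i := by linarith [c.ρ_le i]
  have hr1 : 1 - c.ρ i ≤ 1 := by linarith [c.ρ_pos i]
  have n2 : ∀ y : ℂ, ‖y‖ ≤ 1 → y ≠ c.a i → 1 - conj (((1 - c.ρ i : ℝ) : ℂ) * c.a i) * y ≠ 0 := by
    intro y hy hya
    rw [map_mul, Complex.conj_ofReal, mul_assoc, ← norm_pos_iff]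
    exact one_sub_pos' _ (norm_conj_mul_le (c.norm_a i).le hy)
      (conj_mul_ne_one _ _ (c.norm_a i) hya) _ hr0 hr1
  have hbn : ‖((1 - c.ρ i : ℝ) : ℂ) * c.a i‖ ≤ 1 := by
    rw [norm_mul, c.norm_a, mul_one, Complex.norm_real, Real.norm_of_nonneg hr0]; exact hr1
  have e1 := norm_h_sub_le (c.a i) z z' (c.norm_a i).le n1 n1'
  have e2 := norm_h_sub_le (((1 - c.ρ i : ℝ) : ℂ) * c.a i) z z' hbn (n2 z hz1 (c.ne_a hz i))
    (n2 z' hz1' (c.ne_a hz' i))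
  have f1 : ‖h (c.a i) z‖ = 1 / ‖z - c.a i‖ := norm_h _ _ (c.norm_a i)
  have f2 : ‖h (c.a i) z'‖ ≤ 2 / c.d z' := by
    rw [norm_h _ _ (c.norm_a i)]
    have := c.d_le_a z' i
    calc 1 / ‖z' - c.a i‖ ≤ 1 / c.d z' := one_div_le_one_div_of_le hd this
      _ ≤ 2 / c.d z' := div_le_div_of_nonneg_right (by norm_num) hd.le
  have f3 := norm_h_inner_le (c.a i) z (c.norm_a i) hz1 (c.ne_a hz i) (c.ρ i) (c.ρ_pos i).le
    (c.ρ_le i)
  have f4 : ‖h (((1 - c.ρ i : ℝ) : ℂ) * c.a i) z'‖ ≤ 2 / c.d z' := by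
    have f5 := norm_h_inner_le (c.a i) z' (c.norm_a i) hz1' (c.ne_a hz' i) (c.ρ i) (c.ρ_pos i).le
      (c.ρ_le i)
    refine f5.trans ?_
    have := one_div_le_one_div_of_le hd (c.d_le_a z' i)
    calc 2 * (1 / ‖z' - c.a i‖) ≤ 2 * (1 / c.d z') := by linarith
      _ = 2 / c.d z' := by ring
  have e3 : c.Φ i z' - c.Φ i z = ((c.μ i : ℝ) : ℂ) * ((h (c.a i) z' - h (c.a i) z) +
      (h (((1 - c.ρ i : ℝ) : ℂ) * c.a i) z' - h (((1 - c.ρ i : ℝ) : ℂ) * c.a i) z)) := by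
    rw [Φ, Φ]; ring
  rw [e3, norm_mul, Complex.norm_real, Real.norm_of_nonneg (c.μ_pos i).le]
  have g1 : ‖h (c.a i) z‖ * ‖h (c.a i) z'‖ ≤ (1 / ‖z - c.a i‖) * (2 / c.d z') := by
    rw [f1]; exact mul_le_mul_of_nonneg_left f2 (by positivity)
  have g2 : ‖h (((1 - c.ρ i : ℝ) : ℂ) * c.a i) z‖ * ‖h (((1 - c.ρ i : ℝ) : ℂ) * c.a i) z'‖ ≤
      (2 * (1 / ‖z - c.a i‖)) * (2 / c.d z') :=
    mul_le_mul f3 f4 (norm_nonneg _) (by positivity)
  calc c.μ i * ‖(h (c.a i) z' - h (c.a i) z) +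
      (h (((1 - c.ρ i : ℝ) : ℂ) * c.a i) z' - h (((1 - c.ρ i : ℝ) : ℂ) * c.a i) z)‖
      ≤ c.μ i * (‖z' - z‖ * ((1 / ‖z - c.a i‖) * (2 / c.d z')) +
          ‖z' - z‖ * ((2 * (1 / ‖z - c.a i‖)) * (2 / c.d z'))) := by
        refine mul_le_mul_of_nonneg_left ?_ (c.μ_pos i).le
        refine (norm_add_le _ _).trans (add_le_add (e1.trans ?_) (e2.trans ?_))
        · exact mul_le_mul_of_nonneg_left g1 (norm_nonneg _)
        · exact mul_le_mul_of_nonneg_left g2 (norm_nonneg _)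
    _ = ‖z' - z‖ * (2 / c.d z') * (3 * (c.μ i / ‖z - c.a i‖)) := by ring

lemma norm_F_sub_le (h0 : 0 < α) (h1 : α < 1) {z z' : ℂ} (hz1 : ‖z‖ ≤ 1) (hz : z ∉ c.E)
    (hz1' : ‖z'‖ ≤ 1) (hz' : z' ∉ c.E) :
    ‖c.F z' - c.F z‖ ≤ ‖z' - z‖ * (2 / c.d z') * c.Sg z := by
  have hd := c.d_pos h0 h1 hz'
  have hD : 0 < ‖1 - z‖ := one_sub_pos z (c.ne_one hz)
  have e1 : c.F z' - c.F z = (h 1 z' - h 1 z) + ∑' i, (c.Φ i z' - c.Φ i z) := by
    rw [(c.summ_Φ h0 h1 hz1' hz').tsum_sub (c.summ_Φ h0 h1 hz1 hz), F, F]; ring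
  have n1 : 1 - conj (1 : ℂ) * z ≠ 0 := by
    rw [map_one, one_mul]; exact sub_ne_zero.2 (c.ne_one hz).symm
  have n2 : 1 - conj (1 : ℂ) * z' ≠ 0 := by
    rw [map_one, one_mul]; exact sub_ne_zero.2 (c.ne_one hz').symm
  have e2 := norm_h_sub_le 1 z z' (by simp) n1 n2
  have f1 : ‖h 1 z‖ = 1 / ‖1 - z‖ := by
    rw [norm_h _ _ (by simp), norm_sub_rev]
  have f2 : ‖h 1 z'‖ ≤ 2 / c.d z' := by
    rw [norm_h _ _ (by simp), norm_sub_rev]
    calc 1 / ‖1 - z'‖ ≤ 1 / c.d z' := one_div_le_one_div_of_le hd (c.d_le_one z')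
      _ ≤ 2 / c.d z' := div_le_div_of_nonneg_right (by norm_num) hd.le
  have e3 : ‖∑' i, (c.Φ i z' - c.Φ i z)‖ ≤
      ‖z' - z‖ * (2 / c.d z') * ∑' i, 3 * (c.μ i / ‖z - c.a i‖) := by
    rw [← tsum_mul_left]
    exact tsum_of_norm_bounded
      (((c.summ_div h0 h1 hz).mul_left 3).mul_left (‖z' - z‖ * (2 / c.d z'))).hasSum
      (fun i => c.norm_Φ_sub_le h0 h1 hz1 hz hz1' hz' i)
  rw [e1, Sg, mul_add]
  refine (norm_add_le _ _).trans (add_le_add (e2.trans ?_) e3)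
  rw [f1]
  calc ‖z' - z‖ * (1 / ‖1 - z‖ * ‖h 1 z'‖) ≤ ‖z' - z‖ * (1 / ‖1 - z‖ * (2 / c.d z')) :=
        mul_le_mul_of_nonneg_left (mul_le_mul_of_nonneg_left f2 (by positivity)) (norm_nonneg _)
    _ = _ := by ring

/-- `g = 1 / F` off `E` and `0` on `E`. -/
noncomputable def g (z : ℂ) : ℂ := by
  classical exact if z ∈ c.E then 0 else (c.F z)⁻¹

lemma g_of_mem {z : ℂ} (hz : z ∈ c.E) : c.g z = 0 := by simp [g, hz]

lemma g_of_notMem {z : ℂ} (hz : z ∉ c.E) : c.g z = (c.F z)⁻¹ := by simp [g, hz]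

lemma norm_g_le (h0 : 0 < α) (h1 : α < 1) {z : ℂ} (hz1 : ‖z‖ ≤ 1) (e : ℂ) (he : e ∈ c.E) :
    ‖c.g z‖ ≤ 112640 * ‖z - e‖ ^ α := by
  by_cases hz : z ∈ c.E
  · rw [c.g_of_mem hz, norm_zero]
    exact mul_nonneg (by norm_num) (Real.rpow_nonneg (norm_nonneg _) _)
  · rw [c.g_of_notMem hz]
    exact c.inv_F_le h0 h1 hz1 hz e he

/-- The constant in the Hölder estimate. -/
noncomputable def Cg : ℝ := 20480 * 112640

/-- Hölder estimate for `g` on the closed disc. -/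
lemma g_holder (h0 : 0 < α) (h1 : α < 1) {z z' : ℂ} (hz1 : ‖z‖ ≤ 1) (hz1' : ‖z'‖ ≤ 1) :
    ‖c.g z - c.g z'‖ ≤ Cg * ‖z - z'‖ ^ α := by
  have hnn : 0 ≤ ‖z - z'‖ ^ α := Real.rpow_nonneg (norm_nonneg _) _
  by_cases hz : z ∈ c.E
  · rw [c.g_of_mem hz, zero_sub, norm_neg]
    have := c.norm_g_le h0 h1 hz1' z hz
    rw [norm_sub_rev] at this
    rw [Cg]; linarith
  by_cases hz' : z' ∈ c.E
  · rw [c.g_of_mem hz', sub_zero]
    have := c.norm_g_le h0 h1 hz1 z' hz'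
    rw [Cg]; linarith
  by_cases hne : z = z'
  · rw [hne, sub_self, norm_zero]
    exact mul_nonneg (by rw [Cg]; norm_num) (Real.rpow_nonneg (norm_nonneg _) _)
  have hs0 : 0 < ‖z - z'‖ := norm_pos_iff.2 (sub_ne_zero.2 hne)
  obtain ⟨e, he, hde⟩ := (c.isCompact_E h0 h1).exists_infDist_eq_dist c.E_nonempty z'
  have hd := c.d_pos h0 h1 hz'
  have hde' : c.d z' = ‖z' - e‖ := by rw [d, hde, dist_eq_norm]
  by_cases hcase : ‖z - z'‖ ≤ c.d z'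
  · have hF : 0 < ‖c.F z‖ := norm_pos_iff.2 (c.F_ne_zero h0 h1 hz1 hz)
    have hF' : 0 < ‖c.F z'‖ := norm_pos_iff.2 (c.F_ne_zero h0 h1 hz1' hz')
    rw [c.g_of_notMem hz, c.g_of_notMem hz']
    have e1 : (c.F z)⁻¹ - (c.F z')⁻¹ = (c.F z' - c.F z) * (c.F z)⁻¹ * (c.F z')⁻¹ := by
      have := norm_pos_iff.1 hF
      have := norm_pos_iff.1 hF'
      field_simp
    have e2 := c.norm_F_sub_le h0 h1 hz1 hz hz1' hz'
    have e3 := c.F_ge h0 h1 hz1 hz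
    have e4 : c.Sg z * ‖(c.F z)⁻¹‖ ≤ 10240 := by
      rw [norm_inv, ← div_eq_mul_inv, div_le_iff₀ hF]; linarith
    have e5 := c.inv_F_le h0 h1 hz1' hz' e he
    rw [← hde'] at e5
    have e6 : c.d z' ^ α = c.d z' * c.d z' ^ (α - 1) := by
      rw [Real.rpow_sub hd, Real.rpow_one]; field_simp
    have e7 : c.d z' ^ (α - 1) ≤ ‖z - z'‖ ^ (α - 1) :=
      Real.rpow_le_rpow_of_nonpos hs0 hcase (by linarith)
    have e8 : ‖z - z'‖ * ‖z - z'‖ ^ (α - 1) = ‖z - z'‖ ^ α := by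
      rw [Real.rpow_sub hs0, Real.rpow_one]; field_simp
    rw [e1, norm_mul, norm_mul]
    have hS := (c.Sg_pos hz).le
    calc ‖c.F z' - c.F z‖ * ‖(c.F z)⁻¹‖ * ‖(c.F z')⁻¹‖
        ≤ (‖z' - z‖ * (2 / c.d z') * c.Sg z) * ‖(c.F z)⁻¹‖ * ‖(c.F z')⁻¹‖ := by
          gcongr
      _ = (‖z' - z‖ * (2 / c.d z')) * (c.Sg z * ‖(c.F z)⁻¹‖) * ‖(c.F z')⁻¹‖ := by ring
      _ ≤ (‖z' - z‖ * (2 / c.d z')) * 10240 * (112640 * c.d z' ^ α) := by
          gcongr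
      _ = 20480 * 112640 * (‖z - z'‖ * c.d z' ^ (α - 1)) := by
          rw [e6, norm_sub_rev z' z]; field_simp; ring
      _ ≤ 20480 * 112640 * (‖z - z'‖ * ‖z - z'‖ ^ (α - 1)) := by gcongr
      _ = Cg * ‖z - z'‖ ^ α := by rw [e8, Cg]
  · rw [not_le, hde'] at hcase
    have e1 : ‖z' - e‖ ^ α ≤ ‖z - z'‖ ^ α := Real.rpow_le_rpow (norm_nonneg _) hcase.le h0.le
    have e2 : ‖z - e‖ ≤ 2 * ‖z - z'‖ := by
      have e : z - e = (z - z') + (z' - e) := by ring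
      rw [e]
      refine (norm_add_le _ _).trans ?_
      linarith
    have e3 : ‖z - e‖ ^ α ≤ 2 * ‖z - z'‖ ^ α := by
      calc ‖z - e‖ ^ α ≤ (2 * ‖z - z'‖) ^ α := Real.rpow_le_rpow (norm_nonneg _) e2 h0.le
        _ = 2 ^ α * ‖z - z'‖ ^ α := Real.mul_rpow (by norm_num) (norm_nonneg _)
        _ ≤ 2 * ‖z - z'‖ ^ α := by
          refine mul_le_mul_of_nonneg_right ?_ hnn
          calc (2 : ℝ) ^ α ≤ 2 ^ (1 : ℝ) :=
                Real.rpow_le_rpow_of_exponent_le (by norm_num) h1.le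
            _ = 2 := Real.rpow_one _
    have e4 := c.norm_g_le h0 h1 hz1 e he
    have e5 := c.norm_g_le h0 h1 hz1' e he
    calc ‖c.g z - c.g z'‖ ≤ ‖c.g z‖ + ‖c.g z'‖ := norm_sub_le _ _
      _ ≤ Cg * ‖z - z'‖ ^ α := by rw [Cg]; linarith

lemma differentiableOn_h (b : ℂ) (hb : ‖b‖ ≤ 1) : DifferentiableOn ℂ (h b) (Metric.ball 0 1) := by
  intro z hz
  rw [mem_ball_zero_iff] at hz
  have hne : 1 - conj b * z ≠ 0 := by
    intro h
    have h2 : ‖conj b * z‖ < 1 := by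
      rw [norm_mul, RCLike.norm_conj]
      calc ‖b‖ * ‖z‖ ≤ 1 * ‖z‖ := mul_le_mul_of_nonneg_right hb (norm_nonneg _)
        _ < 1 := by rw [one_mul]; exact hz
    rw [sub_eq_zero] at h
    rw [← h, norm_one] at h2
    exact lt_irrefl _ h2
  have : DifferentiableAt ℂ (h b) z := by
    unfold h
    exact ((differentiableAt_const _).sub (differentiableAt_id.const_mul _)).inv hne
  exact this.differentiableWithinAt

lemma norm_h_le_of_ball (b z : ℂ) (hb : ‖b‖ ≤ 1) (r : ℝ) (hz : ‖z‖ < r) (hr : r < 1) :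
    ‖h b z‖ ≤ 1 / (1 - r) := by
  rw [h, norm_inv, ← one_div]
  refine one_div_le_one_div_of_le (by linarith) ?_
  have h1 : ‖(1 : ℂ)‖ - ‖conj b * z‖ ≤ ‖1 - conj b * z‖ := norm_sub_norm_le _ _
  have h2 : ‖conj b * z‖ ≤ ‖z‖ := by
    rw [norm_mul, RCLike.norm_conj]
    exact mul_le_of_le_one_left (norm_nonneg _) hb
  rw [norm_one] at h1
  linarith

lemma norm_inner_le_one (i : ι) : ‖((1 - c.ρ i : ℝ) : ℂ) * c.a i‖ ≤ 1 := by
  rw [norm_mul, c.norm_a, mul_one, Complex.norm_real, Real.norm_eq_abs, abs_le]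
  have := c.ρ_pos i
  have := c.ρ_le i
  constructor <;> linarith

lemma differentiableOn_F : DifferentiableOn ℂ c.F (Metric.ball 0 1) := by
  intro z hz
  have hz1 : ‖z‖ < 1 := mem_ball_zero_iff.1 hz
  obtain ⟨r, hr1, hr2⟩ := exists_between hz1
  have hsub : Metric.ball (0 : ℂ) r ⊆ Metric.ball 0 1 := Metric.ball_subset_ball hr2.le
  have hsum : DifferentiableOn ℂ (fun w => ∑' i, c.Φ i w) (Metric.ball 0 r) := by
    refine Complex.differentiableOn_tsum_of_summable_norm (u := fun i => c.μ i * (2 / (1 - r)))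
      (c.μ_summ.mul_right _) (fun i => ?_) Metric.isOpen_ball (fun i w hw => ?_)
    · exact (((differentiableOn_h _ (c.norm_a i).le).add
        (differentiableOn_h _ (c.norm_inner_le_one i))).const_mul _).mono hsub
    · have hw' : ‖w‖ < r := mem_ball_zero_iff.1 hw
      rw [Φ, norm_mul, Complex.norm_real, Real.norm_of_nonneg (c.μ_pos i).le]
      refine mul_le_mul_of_nonneg_left ?_ (c.μ_pos i).le
      refine (norm_add_le _ _).trans ?_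
      have e1 := norm_h_le_of_ball (c.a i) w (c.norm_a i).le r hw' hr2
      have e2 := norm_h_le_of_ball _ w (c.norm_inner_le_one i) r hw' hr2
      calc _ ≤ 1 / (1 - r) + 1 / (1 - r) := add_le_add e1 e2
        _ = 2 / (1 - r) := by ring
  have h2 : DifferentiableOn ℂ c.F (Metric.ball 0 r) :=
    ((differentiableOn_h 1 (by simp)).mono hsub).add hsum
  exact (h2.differentiableAt (Metric.isOpen_ball.mem_nhds
    (mem_ball_zero_iff.2 hr1))).differentiableWithinAt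

lemma notMem_E_of_ball {z : ℂ} (hz : ‖z‖ < 1) : z ∉ c.E := by
  intro h
  have := c.E_subset h
  rw [mem_sphere_zero_iff_norm] at this
  linarith

lemma differentiableOn_g (h0 : 0 < α) (h1 : α < 1) :
    DifferentiableOn ℂ c.g (Metric.ball 0 1) := by
  have h2 : DifferentiableOn ℂ (fun z => (c.F z)⁻¹) (Metric.ball 0 1) :=
    c.differentiableOn_F.inv fun z hz =>
      c.F_ne_zero h0 h1 (mem_ball_zero_iff.1 hz).le (c.notMem_E_of_ball (mem_ball_zero_iff.1 hz))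
  exact h2.congr fun z hz => c.g_of_notMem (c.notMem_E_of_ball (mem_ball_zero_iff.1 hz))

lemma continuousOn_g (h0 : 0 < α) (h1 : α < 1) :
    ContinuousOn c.g (Metric.closedBall 0 1) := by
  intro z hz
  rw [ContinuousWithinAt, tendsto_iff_norm_sub_tendsto_zero]
  have hz1 : ‖z‖ ≤ 1 := mem_closedBall_zero_iff.1 hz
  have h2 : Tendsto (fun w : ℂ => Cg * ‖w - z‖ ^ α) (𝓝[Metric.closedBall 0 1] z) (𝓝 0) := by
    have h3 : Tendsto (fun w : ℂ => Cg * ‖w - z‖ ^ α) (𝓝 z) (𝓝 (Cg * ‖z - z‖ ^ α)) := by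
      have hc : Continuous fun w : ℂ => Cg * ‖w - z‖ ^ α :=
        continuous_const.mul ((continuous_id.sub continuous_const).norm.rpow_const
          fun _ => Or.inr h0.le)
      exact hc.tendsto z
    rw [sub_self, norm_zero, Real.zero_rpow h0.ne', mul_zero] at h3
    exact h3.mono_left nhdsWithin_le_nhds
  refine squeeze_zero' (Eventually.of_forall fun _ => norm_nonneg _) ?_ h2
  filter_upwards [self_mem_nhdsWithin] with w hw
  exact c.g_holder h0 h1 (mem_closedBall_zero_iff.1 hw) hz1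

/-- The set `E` of a configuration is a peak set. -/
theorem isPeakSet (h0 : 0 < α) (h1 : α < 1) : IsPeakSet α c.E := by
  refine ⟨(c.isCompact_E h0 h1).isClosed, c.E_subset, fun z => 1 - (1 / 2) * c.g z, ?_, ?_, ?_⟩
  · refine ⟨?_, ?_, (1 / 2) * Cg, fun ζ₁ hζ₁ ζ₂ hζ₂ => ?_⟩
    · exact (differentiableOn_const _).sub ((c.differentiableOn_g h0 h1).const_mul _)
    · exact continuousOn_const.sub (continuousOn_const.mul (c.continuousOn_g h0 h1))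
    · have e : (1 - (1 / 2) * c.g ζ₁) - (1 - (1 / 2) * c.g ζ₂) =
          -((1 / 2) * (c.g ζ₁ - c.g ζ₂)) := by ring
      rw [e, norm_neg, norm_mul]
      have := c.g_holder h0 h1 (mem_sphere_zero_iff_norm.1 hζ₁).le
        (mem_sphere_zero_iff_norm.1 hζ₂).le
      have h2 : ‖(1 / 2 : ℂ)‖ = 1 / 2 := by norm_num
      rw [h2]
      linarith
  · intro ζ hζ
    simp only [c.g_of_mem hζ, mul_zero, sub_zero]
  · rintro ζ ⟨hζ, hζE⟩
    have hζ1 := (mem_sphere_zero_iff_norm.1 hζ).le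
    have hF := c.half_le_re_F h0 h1 hζ1 hζE
    have hF0 := c.F_ne_zero h0 h1 hζ1 hζE
    have hFn : 0 < ‖c.F ζ‖ := norm_pos_iff.2 hF0
    simp only [c.g_of_notMem hζE]
    have e : 1 - (1 / 2) * (c.F ζ)⁻¹ = (c.F ζ - 1 / 2) / c.F ζ := by field_simp
    rw [e, norm_div, div_lt_one hFn, ← abs_norm (c.F ζ - 1 / 2), ← abs_norm (c.F ζ), ← sq_lt_sq,
      ← Complex.normSq_eq_norm_sq, ← Complex.normSq_eq_norm_sq, Complex.normSq_apply,
      Complex.normSq_apply]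
    have e1 : (c.F ζ - 1 / 2).re = (c.F ζ).re - 1 / 2 := by simp
    have e2 : (c.F ζ - 1 / 2).im = (c.F ζ).im := by simp
    rw [e1, e2]
    nlinarith

end Config

end Pool.Agent.LipPeak
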