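import Mathlib
import Pool.Agent.LipPeak.Defs
import Pool.Agent.LipPeak.Block
import Pool.Agent.LipPeak.Three
import Pool.Agent.LipPeak.Abstract
import Pool.Agent.LipPeak.Peak

/-!
# The concrete configuration
-/

set_option autoImplicit false

open scoped ComplexConjugate Topology
open Filter Set

namespace Pool.Agent.LipPeak

/-- scales -/
noncomputable def P (k : ℕ) : ℝ := (1 / 2) ^ (k + 1)

lemma P_pos (k : ℕ) : 0 < P k := by unfold P; positivity

lemma P_le_half (k : ℕ) : P k ≤ 1 / 2 := by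
  unfold P
  rw [pow_succ]
  have : ((1 : ℝ) / 2) ^ k ≤ 1 := pow_le_one₀ (by norm_num) (by norm_num)
  linarith

lemma two_P_le {k k' : ℕ} (h : k < k') : 2 * P k' ≤ P k := by
  unfold P
  obtain ⟨j, rfl⟩ : ∃ j, k' = k + 1 + j := ⟨k' - (k + 1), by omega⟩
  have e : ((1 : ℝ) / 2) ^ (k + 1 + j + 1) = (1 / 2) ^ (k + 1) * (1 / 2) ^ j * (1 / 2) := by
    rw [← pow_add, ← pow_succ]
  rw [e]
  have h1 : ((1 : ℝ) / 2) ^ j ≤ 1 := pow_le_one₀ (by norm_num) (by norm_num)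
  have h2 : (0 : ℝ) < (1 / 2) ^ (k + 1) := by positivity
  nlinarith

variable (α : ℝ)

noncomputable def rho (k : ℕ) : ℝ := P k ^ (1 / α)

noncomputable def Zc : ℝ := ∑' k : ℕ, 1 / ((k : ℝ) + 1) ^ (1 / α)

noncomputable def Ac : ℝ := 480 * (5 * Zc α + 8 * (1 + 1 / α))

noncomputable def ell (k : ℕ) : ℝ := Ac α * ((k : ℝ) + 1) ^ (1 / α) * rho α k

noncomputable def NN (k : ℕ) : ℕ := ⌊P k / (2 * ell α k)⌋₊

/-- index type -/
abbrev Idx : Type := Σ k : ℕ, Fin (NN α k)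

noncomputable def yy (m : Idx α) : ℝ := P m.1 + (m.2 : ℕ) * ell α m.1

variable {α}

lemma rho_pos (k : ℕ) : 0 < rho α k := Real.rpow_pos_of_pos (P_pos k) _

lemma rho_rpow (h0 : 0 < α) (k : ℕ) : rho α k ^ α = P k := by
  rw [rho, ← Real.rpow_mul (P_pos k).le, one_div_mul_cancel h0.ne', Real.rpow_one]

lemma one_le_inv (h0 : 0 < α) (h1 : α < 1) : 1 < 1 / α := by
  rw [lt_div_iff₀ h0]; linarith

lemma rho_le_P (h0 : 0 < α) (h1 : α < 1) (k : ℕ) : rho α k ≤ P k := by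
  have := P_le_half k
  calc rho α k ≤ P k ^ (1 : ℝ) :=
        Real.rpow_le_rpow_of_exponent_ge (P_pos k) (by linarith) (one_le_inv h0 h1).le
    _ = P k := Real.rpow_one _

lemma rho_le_one (h0 : 0 < α) (h1 : α < 1) (k : ℕ) : rho α k ≤ 1 := by
  have := P_le_half k
  have := rho_le_P h0 h1 k
  linarith

lemma summable_Z (h0 : 0 < α) (h1 : α < 1) :
    Summable fun k : ℕ => 1 / ((k : ℝ) + 1) ^ (1 / α) := by
  have := (Real.summable_one_div_nat_rpow (p := 1 / α)).2 (one_le_inv h0 h1)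
  have h2 := (summable_nat_add_iff 1).2 this
  simpa using h2

lemma Zc_nonneg : 0 ≤ Zc α := tsum_nonneg fun k => by positivity

lemma Ac_ge (h0 : 0 < α) : 480 * 8 ≤ Ac α := by
  have h2 := Zc_nonneg (α := α)
  have h3 : 0 < 1 / α := by positivity
  unfold Ac; linarith

lemma Ac_pos (h0 : 0 < α) : 0 < Ac α := by have := Ac_ge h0; linarith

lemma ell_pos (h0 : 0 < α) (k : ℕ) : 0 < ell α k := by
  have := Ac_pos h0
  have := rho_pos (α := α) k
  unfold ell; positivity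

lemma one_le_kpow (h0 : 0 < α) (k : ℕ) : 1 ≤ ((k : ℝ) + 1) ^ (1 / α) :=
  Real.one_le_rpow (by have : (0 : ℝ) ≤ k := Nat.cast_nonneg k; linarith) (by positivity)

lemma rho_le_ell (h0 : 0 < α) (k : ℕ) : rho α k ≤ ell α k := by
  have h2 := Ac_ge h0
  have h3 := one_le_kpow h0 k
  have h4 := rho_pos (α := α) k
  unfold ell
  have h5 : 1 ≤ Ac α * ((k : ℝ) + 1) ^ (1 / α) := by nlinarith
  nlinarith

lemma NN_mul_le (h0 : 0 < α) (k : ℕ) : (NN α k : ℝ) * ell α k ≤ P k / 2 := by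
  have h2 := ell_pos h0 k
  have h3 : (NN α k : ℝ) ≤ P k / (2 * ell α k) :=
    Nat.floor_le (div_nonneg (P_pos k).le (by positivity))
  calc (NN α k : ℝ) * ell α k ≤ P k / (2 * ell α k) * ell α k :=
        mul_le_mul_of_nonneg_right h3 h2.le
    _ = P k / 2 := by field_simp

lemma rho_one_sub (h0 : 0 < α) (k : ℕ) : rho α k ^ (1 - α) = rho α k / P k := by
  rw [Real.rpow_sub (rho_pos k), Real.rpow_one, rho_rpow h0]

lemma NN_mul_M_le (h0 : 0 < α) (k : ℕ) :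
    (NN α k : ℝ) * rho α k ^ (1 - α) ≤ (1 / (2 * Ac α)) * (1 / ((k : ℝ) + 1) ^ (1 / α)) := by
  have h2 := ell_pos h0 k
  have h3 := NN_mul_le h0 k
  have h4 := P_pos k
  have h5 := rho_pos (α := α) k
  have h6 := Ac_pos h0
  have h7 := one_le_kpow h0 k
  rw [rho_one_sub h0]
  have e : (NN α k : ℝ) * (rho α k / P k) = ((NN α k : ℝ) * ell α k) * (rho α k / (P k * ell α k)) := by
    field_simp
  rw [e]
  calc ((NN α k : ℝ) * ell α k) * (rho α k / (P k * ell α k))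
      ≤ (P k / 2) * (rho α k / (P k * ell α k)) :=
        mul_le_mul_of_nonneg_right h3 (by positivity)
    _ = (1 / (2 * Ac α)) * (1 / ((k : ℝ) + 1) ^ (1 / α)) := by
        unfold ell; field_simp

lemma yy_ge (h0 : 0 < α) (m : Idx α) : P m.1 ≤ yy α m := by
  have := ell_pos h0 m.1
  unfold yy
  have : (0 : ℝ) ≤ ((m.2 : ℕ) : ℝ) * ell α m.1 := by positivity
  linarith

lemma yy_le (h0 : 0 < α) (m : Idx α) : yy α m ≤ 3 / 2 * P m.1 := by
  have h2 := ell_pos h0 m.1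
  have h3 := NN_mul_le h0 m.1
  have h4 : ((m.2 : ℕ) : ℝ) ≤ NN α m.1 := by exact_mod_cast m.2.2.le
  have h5 := mul_le_mul_of_nonneg_right h4 h2.le
  unfold yy
  linarith

lemma yy_pos (h0 : 0 < α) (m : Idx α) : 0 < yy α m := (P_pos _).trans_le (yy_ge h0 m)

lemma yy_le_one (h0 : 0 < α) (m : Idx α) : yy α m ≤ 1 := by
  have := yy_le h0 m
  have := P_le_half m.1
  linarith

/-- Cayley transform of the real line. -/
noncomputable def cay (y : ℝ) : ℂ := (1 + y * Complex.I) / (1 - y * Complex.I)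

lemma den_ne (y : ℝ) : (1 - y * Complex.I : ℂ) ≠ 0 := by
  intro h
  have := congrArg Complex.re h
  simp at this

lemma norm_den_ge (y : ℝ) : 1 ≤ ‖(1 - y * Complex.I : ℂ)‖ := by
  have := Complex.abs_re_le_norm (1 - y * Complex.I : ℂ)
  simpa using this

lemma norm_den_le (y : ℝ) (hy : 0 ≤ y) (hy1 : y ≤ 1) : ‖(1 - y * Complex.I : ℂ)‖ ≤ 2 := by
  calc ‖(1 - y * Complex.I : ℂ)‖ ≤ ‖(1 : ℂ)‖ + ‖(y * Complex.I : ℂ)‖ := norm_sub_le _ _
    _ ≤ 2 := by
      rw [norm_one, norm_mul, Complex.norm_I, Complex.norm_real, Real.norm_of_nonneg hy]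
      linarith

lemma norm_cay (y : ℝ) : ‖cay y‖ = 1 := by
  have h2 : conj (1 - y * Complex.I : ℂ) = 1 + y * Complex.I := by
    simp
  rw [cay, norm_div, ← h2, RCLike.norm_conj]
  exact div_self (norm_ne_zero_iff.2 (den_ne y))

lemma one_sub_cay (y : ℝ) : 1 - cay y = -(2 * y * Complex.I) / (1 - y * Complex.I) := by
  have := den_ne y
  rw [cay]; field_simp; ring

lemma norm_one_sub_cay (y : ℝ) (hy : 0 ≤ y) :
    ‖1 - cay y‖ = 2 * y / ‖(1 - y * Complex.I : ℂ)‖ := by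
  rw [one_sub_cay, norm_div, norm_neg, norm_mul, norm_mul, Complex.norm_I, Complex.norm_real,
    Real.norm_of_nonneg hy]
  norm_num

lemma norm_one_sub_cay_ge (y : ℝ) (hy : 0 ≤ y) (hy1 : y ≤ 1) : y ≤ ‖1 - cay y‖ := by
  rw [norm_one_sub_cay y hy]
  have h2 := norm_den_le y hy hy1
  have h3 := norm_den_ge y
  rw [le_div_iff₀ (by linarith)]
  nlinarith

lemma norm_one_sub_cay_le (y : ℝ) (hy : 0 ≤ y) : ‖1 - cay y‖ ≤ 2 * y := by
  rw [norm_one_sub_cay y hy]
  exact div_le_self (by positivity) (norm_den_ge y)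

/-- The key ratio identity. -/
lemma ratio (z : ℂ) (hz : 1 + z ≠ 0) (y : ℝ) :
    ‖1 - z‖ * ‖Complex.I * (1 - z) / (1 + z) - y‖ =
      ‖Complex.I * (1 - z) / (1 + z)‖ * ‖(1 - y * Complex.I : ℂ)‖ * ‖z - cay y‖ := by
  have hd := den_ne y
  set w := Complex.I * (1 - z) / (1 + z) with hwdef
  have hw : w * (1 + z) = Complex.I * (1 - z) := by rw [hwdef]; field_simp
  have hc : cay y * (1 - y * Complex.I) = 1 + y * Complex.I := by rw [cay]; field_simp
  have h2 : (1 - z) * (w - y) = -(w * (1 - y * Complex.I) * (z - cay y)) := by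
    linear_combination (-(y * Complex.I)) * hw - w * hc - y * (1 - z) * Complex.I_sq
  rw [← norm_mul, ← norm_mul, ← norm_mul, h2, norm_neg]

end Pool.Agent.LipPeak
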