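import Mathlib
import Pool.Agent.LipPeak.Concrete

/-!
# The separation estimate
-/

set_option autoImplicit false

open scoped ComplexConjugate Topology
open Filter Set

namespace Pool.Agent.LipPeak

variable {α : ℝ}

lemma harm_le (n : ℕ) : ∑ i ∈ Finset.range n, 1 / ((i : ℝ) + 1) ≤ 1 + Real.log n := by
  have h := harmonic_le_one_add_log n
  have e : ((harmonic n : ℚ) : ℝ) = ∑ i ∈ Finset.range n, 1 / ((i : ℝ) + 1) := by
    rw [harmonic]; push_cast
    exact Finset.sum_congr rfl fun i _ => by rw [one_div]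
  rw [e] at h; exact h

lemma harm_sum (N j0 : ℕ) (hj : j0 < N) :
    ∑ j ∈ Finset.range N, 1 / |(j : ℝ) - j0| ≤ 2 * (1 + Real.log N) := by
  obtain ⟨m, rfl⟩ : ∃ m, N = (j0 + 1) + m := ⟨N - (j0 + 1), by omega⟩
  rw [Finset.sum_range_add]
  have e1 : ∑ j ∈ Finset.range (j0 + 1), 1 / |(j : ℝ) - j0| =
      ∑ i ∈ Finset.range j0, 1 / ((i : ℝ) + 1) := by
    rw [← Finset.sum_range_reflect, Finset.sum_range_succ']
    simp only [Nat.add_sub_cancel, Nat.sub_zero, sub_self, abs_zero, div_zero, add_zero]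
    refine Finset.sum_congr rfl fun i hi => ?_
    have hi' := Finset.mem_range.1 hi
    rw [Nat.cast_sub (by omega)]
    push_cast
    have e : (j0 : ℝ) - ((i : ℝ) + 1) - j0 = -((i : ℝ) + 1) := by ring
    rw [e, abs_neg, abs_of_pos (by positivity)]
  have e2 : ∑ x ∈ Finset.range m, 1 / |(((j0 + 1 + x : ℕ) : ℝ)) - j0| =
      ∑ i ∈ Finset.range m, 1 / ((i : ℝ) + 1) := by
    refine Finset.sum_congr rfl fun i _ => ?_
    push_cast
    have e : (j0 : ℝ) + 1 + i - j0 = (i : ℝ) + 1 := by ring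
    rw [e, abs_of_pos (by positivity)]
  rw [e1, e2]
  have h1 := harm_le j0
  have h2 := harm_le m
  have hl : ∀ n : ℕ, n ≤ j0 + 1 + m → Real.log n ≤ Real.log ((j0 + 1 + m : ℕ) : ℝ) := by
    intro n hn
    rcases Nat.eq_zero_or_pos n with h | h
    · subst h
      simp only [Nat.cast_zero, Real.log_zero]
      exact Real.log_natCast_nonneg _
    · exact Real.log_le_log (by exact_mod_cast h) (by exact_mod_cast hn)
  have h3 := hl j0 (by omega)
  have h4 := hl m (by omega)
  linarith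

lemma log_NN_le (h0 : 0 < α) (h1 : α < 1) (k : ℕ) :
    1 + Real.log (NN α k) ≤ (1 + 1 / α) * ((k : ℝ) + 1) := by
  have hk : (0 : ℝ) ≤ k := Nat.cast_nonneg k
  have hinv : 0 < 1 / α := by positivity
  have hbase : (1 : ℝ) ≤ (1 + 1 / α) * ((k : ℝ) + 1) := by nlinarith
  rcases Nat.eq_zero_or_pos (NN α k) with h | h
  · rw [h, Nat.cast_zero, Real.log_zero]; linarith
  · have hρ := rho_pos (α := α) k
    have hN : (NN α k : ℝ) ≤ 1 / rho α k := by
      rw [le_div_iff₀ hρ]
      have h2 := NN_mul_le h0 k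
      have h3 := rho_le_ell h0 k
      have h4 := P_le_half k
      have h5 : (NN α k : ℝ) * rho α k ≤ NN α k * ell α k :=
        mul_le_mul_of_nonneg_left h3 (Nat.cast_nonneg _)
      linarith
    have h2 : Real.log (NN α k) ≤ Real.log (1 / rho α k) :=
      Real.log_le_log (by exact_mod_cast h) hN
    have h3 : Real.log (1 / rho α k) = (1 / α) * (((k : ℝ) + 1) * Real.log 2) := by
      rw [one_div, Real.log_inv, rho, Real.log_rpow (P_pos k), P, Real.log_pow, one_div 2,
        Real.log_inv]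
      push_cast; ring
    have h4 : Real.log 2 ≤ 1 := by
      have := Real.log_two_lt_d9; linarith
    rw [h3] at h2
    have h5 : (1 / α) * (((k : ℝ) + 1) * Real.log 2) ≤ (1 / α) * (((k : ℝ) + 1) * 1) := by
      gcongr
    nlinarith

/-- Near/far dichotomy on the line. -/
lemma near_far (h0 : 0 < α) (h1 : α < 1) [Nonempty (Idx α)] (x : ℝ) : ∃ n : Idx α, ∀ m : Idx α,
    m ≠ n → x ≠ yy α m ∧ |x| / |x - yy α m| ≤
      8 + (if m.1 = n.1 then (4 * P n.1 / ell α n.1) * (1 / |((m.2 : ℕ) : ℝ) - ((n.2 : ℕ) : ℝ)|)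
        else 0) := by
  have hnn : ∀ n m : Idx α, 0 ≤ (if m.1 = n.1 then
      (4 * P n.1 / ell α n.1) * (1 / |((m.2 : ℕ) : ℝ) - ((n.2 : ℕ) : ℝ)|) else 0) := by
    intro n m
    have := P_pos n.1
    have := ell_pos h0 n.1
    split_ifs
    · positivity
    · exact le_rfl
  rcases le_or_gt x 0 with hx | hx
  · obtain ⟨n⟩ := (inferInstance : Nonempty (Idx α))
    refine ⟨n, fun m _ => ?_⟩
    have hy := yy_pos h0 m
    refine ⟨by linarith, ?_⟩
    have h2 := hnn n m
    have h3 : |x| / |x - yy α m| ≤ 1 := by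
      rw [div_le_one (abs_pos.2 (by linarith)), abs_of_nonpos hx, abs_of_neg (by linarith)]
      linarith
    linarith
  · by_cases hnear : ∃ m1 : Idx α, |x - yy α m1| < x / 8
    · obtain ⟨m1, hm1⟩ := hnear
      obtain ⟨k0, j1⟩ := m1
      have hne : (Finset.univ : Finset (Fin (NN α k0))).Nonempty := ⟨j1, Finset.mem_univ _⟩
      obtain ⟨j0, -, hj0⟩ := Finset.exists_min_image Finset.univ
        (fun j : Fin (NN α k0) => |x - yy α ⟨k0, j⟩|) hne
      have hxP : x ≤ 2 * P k0 := by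
        have h2 := yy_le h0 ⟨k0, j1⟩
        have h3 := (abs_lt.1 hm1).2
        have h4 := P_pos k0
        simp only at h2
        linarith
      refine ⟨⟨k0, j0⟩, fun m hm => ?_⟩
      obtain ⟨k, j⟩ := m
      have hPk := P_pos k
      have hPk0 := P_pos k0
      by_cases hk : k = k0
      · subst hk
        have hjj : j ≠ j0 := fun h => hm (by rw [h])
        have hjj' : ((j : ℕ) : ℝ) - ((j0 : ℕ) : ℝ) ≠ 0 := by
          rw [sub_ne_zero]
          intro h
          exact hjj (Fin.ext (by exact_mod_cast h))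
        have hℓ := ell_pos h0 k
        have h2 := hj0 j (Finset.mem_univ _)
        have h3 : |((j : ℕ) : ℝ) - ((j0 : ℕ) : ℝ)| * ell α k ≤ 2 * |x - yy α ⟨k, j⟩| := by
          have e : (((j : ℕ) : ℝ) - ((j0 : ℕ) : ℝ)) * ell α k =
              (x - yy α ⟨k, j0⟩) - (x - yy α ⟨k, j⟩) := by
            simp only [yy]; ring
          have e2 : |((j : ℕ) : ℝ) - ((j0 : ℕ) : ℝ)| * ell α k =
              |(((j : ℕ) : ℝ) - ((j0 : ℕ) : ℝ)) * ell α k| := by
            rw [abs_mul, abs_of_pos hℓ]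
          rw [e2, e]
          have := abs_sub (x - yy α ⟨k, j0⟩) (x - yy α ⟨k, j⟩)
          linarith
        have hpos : 0 < |((j : ℕ) : ℝ) - ((j0 : ℕ) : ℝ)| := abs_pos.2 hjj'
        have h4 : 0 < |x - yy α ⟨k, j⟩| := by
          have : 0 < |((j : ℕ) : ℝ) - ((j0 : ℕ) : ℝ)| * ell α k := by positivity
          linarith
        refine ⟨fun h => ?_, ?_⟩
        · rw [h, sub_self, abs_zero] at h4
          exact lt_irrefl _ h4
        · simp only [if_true]
          have h5 : |x| / |x - yy α ⟨k, j⟩| ≤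
              (4 * P k / ell α k) * (1 / |((j : ℕ) : ℝ) - ((j0 : ℕ) : ℝ)|) := by
            rw [div_mul_div_comm, mul_one, div_le_div_iff₀ h4 (by positivity), abs_of_pos hx]
            calc x * (ell α k * |((j : ℕ) : ℝ) - ((j0 : ℕ) : ℝ)|)
                = x * (|((j : ℕ) : ℝ) - ((j0 : ℕ) : ℝ)| * ell α k) := by ring
              _ ≤ (2 * P k) * (2 * |x - yy α ⟨k, j⟩|) := by gcongr
              _ = 4 * P k * |x - yy α ⟨k, j⟩| := by ring
          linarith
      · -- far, since different blocks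
        have hfar : x / 8 ≤ |x - yy α ⟨k, j⟩| := by
          by_contra hcon
          rw [not_le] at hcon
          have a1 := abs_lt.1 hcon
          have a2 := abs_lt.1 hm1
          have b1 := yy_ge h0 ⟨k, j⟩
          have b2 := yy_le h0 ⟨k, j⟩
          have b3 := yy_ge h0 ⟨k0, j1⟩
          have b4 := yy_le h0 ⟨k0, j1⟩
          simp only at b1 b2 b3 b4
          rcases lt_or_gt_of_ne hk with h | h
          · have := two_P_le h
            linarith [a1.1, a1.2, a2.1, a2.2]
          · have := two_P_le h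
            linarith [a1.1, a1.2, a2.1, a2.2]
        have hp : 0 < |x - yy α ⟨k, j⟩| := by linarith
        refine ⟨fun h => ?_, ?_⟩
        · rw [h, sub_self, abs_zero] at hp
          exact lt_irrefl _ hp
        · have h2 := hnn ⟨k0, j0⟩ ⟨k, j⟩
          have h3 : |x| / |x - yy α ⟨k, j⟩| ≤ 8 := by
            rw [div_le_iff₀ hp, abs_of_pos hx]; linarith
          linarith
    · push Not at hnear
      obtain ⟨n⟩ := (inferInstance : Nonempty (Idx α))
      refine ⟨n, fun m _ => ?_⟩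
      have hm := hnear m
      have hp : 0 < |x - yy α m| := by linarith
      refine ⟨fun h => ?_, ?_⟩
      · rw [h, sub_self, abs_zero] at hp
        exact lt_irrefl _ hp
      · have h2 := hnn n m
        have h3 : |x| / |x - yy α m| ≤ 8 := by
          rw [div_le_iff₀ hp, abs_of_pos hx]; linarith
        linarith

/-- The weights. -/
noncomputable def M (m : Idx α) : ℝ := rho α m.1 ^ (1 - α)

lemma M_pos (m : Idx α) : 0 < M m := Real.rpow_pos_of_pos (rho_pos _) _

lemma summable_M (h0 : 0 < α) (h1 : α < 1) : Summable (M (α := α)) := by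
  rw [summable_sigma_of_nonneg fun m => (M_pos m).le]
  refine ⟨fun k => (hasSum_fintype _).summable, ?_⟩
  refine Summable.of_nonneg_of_le (fun k => tsum_nonneg fun j => (M_pos _).le) (fun k => ?_)
    ((summable_Z h0 h1).mul_left (1 / (2 * Ac α)))
  rw [tsum_fintype]
  have : ∑ j : Fin (NN α k), M (⟨k, j⟩ : Idx α) = NN α k * rho α k ^ (1 - α) := by
    simp [M]
  rw [this]
  exact NN_mul_M_le h0 k

lemma tsum_M_le (h0 : 0 < α) (h1 : α < 1) : ∑' m : Idx α, M m ≤ Zc α / (2 * Ac α) := by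
  rw [(summable_M h0 h1).tsum_sigma]
  have h2 : ∀ k, ∑' j : Fin (NN α k), M (⟨k, j⟩ : Idx α) ≤
      (1 / (2 * Ac α)) * (1 / ((k : ℝ) + 1) ^ (1 / α)) := by
    intro k
    rw [tsum_fintype]
    have : ∑ j : Fin (NN α k), M (⟨k, j⟩ : Idx α) = NN α k * rho α k ^ (1 - α) := by
      simp [M]
    rw [this]
    exact NN_mul_M_le h0 k
  calc ∑' k, ∑' j : Fin (NN α k), M (⟨k, j⟩ : Idx α)
      ≤ ∑' k : ℕ, (1 / (2 * Ac α)) * (1 / ((k : ℝ) + 1) ^ (1 / α)) :=
        Summable.tsum_le_tsum h2 (summable_M h0 h1).sigma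
          ((summable_Z h0 h1).mul_left (1 / (2 * Ac α)))
    _ = Zc α / (2 * Ac α) := by
        rw [tsum_mul_left, Zc]; ring

lemma sum_block (h0 : 0 < α) (h1 : α < 1) (n : Idx α) (S : Finset (Idx α)) :
    ∑ m ∈ S, M m * (if m.1 = n.1 then
      (4 * P n.1 / ell α n.1) * (1 / |((m.2 : ℕ) : ℝ) - ((n.2 : ℕ) : ℝ)|) else 0) ≤
      8 * (1 + 1 / α) / Ac α := by
  classical
  have hP := P_pos n.1
  have hℓ := ell_pos h0 n.1
  have hρ := rho_pos (α := α) n.1
  have hA := Ac_pos h0
  set f : Idx α → ℝ := fun m => M m * (if m.1 = n.1 then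
      (4 * P n.1 / ell α n.1) * (1 / |((m.2 : ℕ) : ℝ) - ((n.2 : ℕ) : ℝ)|) else 0) with hf
  have hf0 : ∀ m, 0 ≤ f m := by
    intro m
    refine mul_nonneg (M_pos m).le ?_
    split_ifs
    · positivity
    · exact le_rfl
  -- a bound on the blocks used
  obtain ⟨K, hK⟩ : ∃ K : ℕ, S ⊆ (Finset.range K).sigma (fun k => (Finset.univ : Finset (Fin (NN α k)))) := by
    refine ⟨(S.sup (fun m => m.1)) + 1, fun m hm => ?_⟩
    simp only [Finset.mem_sigma, Finset.mem_range, Finset.mem_univ, and_true]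
    exact Nat.lt_succ_of_le (Finset.le_sup (f := fun m : Idx α => m.1) hm)
  calc ∑ m ∈ S, f m
      ≤ ∑ m ∈ (Finset.range K).sigma (fun k => (Finset.univ : Finset (Fin (NN α k)))), f m :=
        Finset.sum_le_sum_of_subset_of_nonneg hK fun m _ _ => hf0 m
    _ = ∑ k ∈ Finset.range K, ∑ j : Fin (NN α k), f ⟨k, j⟩ := Finset.sum_sigma _ _ _
    _ = ∑ k ∈ Finset.range K, if k = n.1 then ∑ j : Fin (NN α n.1), f ⟨n.1, j⟩ else 0 := by
        refine Finset.sum_congr rfl fun k _ => ?_
        split_ifs with hk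
        · subst hk; rfl
        · refine Finset.sum_eq_zero fun j _ => ?_
          simp only [hf, if_neg hk, mul_zero]
    _ ≤ ∑ j : Fin (NN α n.1), f ⟨n.1, j⟩ := by
        rw [Finset.sum_ite_eq']
        split_ifs
        · exact le_rfl
        · exact Finset.sum_nonneg fun j _ => hf0 _
    _ = (rho α n.1 ^ (1 - α) * (4 * P n.1 / ell α n.1)) *
          ∑ j ∈ Finset.range (NN α n.1), 1 / |(j : ℝ) - ((n.2 : ℕ) : ℝ)| := by
        rw [Finset.mul_sum, ← Fin.sum_univ_eq_sum_range
          (fun j => (rho α n.1 ^ (1 - α) * (4 * P n.1 / ell α n.1)) *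
            (1 / |(j : ℝ) - ((n.2 : ℕ) : ℝ)|)) (NN α n.1)]
        refine Finset.sum_congr rfl fun j _ => ?_
        simp only [hf, M, if_true]; ring
    _ ≤ (rho α n.1 ^ (1 - α) * (4 * P n.1 / ell α n.1)) * (2 * (1 + Real.log (NN α n.1))) := by
        refine mul_le_mul_of_nonneg_left (harm_sum _ _ n.2.2) ?_
        have := Real.rpow_nonneg hρ.le (1 - α)
        positivity
    _ ≤ (rho α n.1 ^ (1 - α) * (4 * P n.1 / ell α n.1)) *
          (2 * ((1 + 1 / α) * ((n.1 : ℝ) + 1))) := by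
        refine mul_le_mul_of_nonneg_left ?_ ?_
        · have := log_NN_le h0 h1 n.1; linarith
        · have := Real.rpow_nonneg hρ.le (1 - α)
          positivity
    _ = 8 * (1 + 1 / α) / Ac α * (((n.1 : ℝ) + 1) / ((n.1 : ℝ) + 1) ^ (1 / α)) := by
        rw [rho_one_sub h0]
        unfold ell
        field_simp
        ring
    _ ≤ 8 * (1 + 1 / α) / Ac α * 1 := by
        refine mul_le_mul_of_nonneg_left ?_ (by positivity)
        rw [div_le_one (by positivity)]
        calc ((n.1 : ℝ) + 1) = ((n.1 : ℝ) + 1) ^ (1 : ℝ) := (Real.rpow_one _).symm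
          _ ≤ ((n.1 : ℝ) + 1) ^ (1 / α) :=
            Real.rpow_le_rpow_of_exponent_le (by
              have : (0 : ℝ) ≤ (n.1 : ℝ) := Nat.cast_nonneg _
              linarith) (one_le_inv h0 h1).le
    _ = 8 * (1 + 1 / α) / Ac α := mul_one _

end Pool.Agent.LipPeak
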