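import Mathlib
import Pool.Agent.LipPeak.Sep

/-!
# The separation estimate: conclusion, and the concrete configuration
-/

set_option autoImplicit false

open scoped ComplexConjugate Topology
open Filter Set

namespace Pool.Agent.LipPeak

variable {α : ℝ}

lemma cay_ne_neg_one (y : ℝ) : 1 + cay y ≠ 0 := by
  have := den_ne y
  intro h
  have e : 1 + cay y = 2 / (1 - y * Complex.I) := by rw [cay]; field_simp; ring
  rw [e, div_eq_zero_iff] at h
  rcases h with h | h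
  · norm_num at h
  · exact this h

lemma dist_bound (h0 : 0 < α) (z : ℂ) (hz1 : z ≠ 1) (hzm : 1 + z ≠ 0) (m : Idx α)
    (hzm' : z ≠ cay (yy α m)) (hx : (Complex.I * (1 - z) / (1 + z)).re ≠ yy α m) :
    1 / ‖z - cay (yy α m)‖ ≤ (1 / ‖1 - z‖) *
      (2 * (|(Complex.I * (1 - z) / (1 + z)).re| / |(Complex.I * (1 - z) / (1 + z)).re - yy α m| +
        1)) := by
  have hr := ratio z hzm (yy α m)
  set w := Complex.I * (1 - z) / (1 + z) with hw
  set y := yy α m with hy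
  have hy0 : 0 < y := yy_pos h0 m
  have hy1 : y ≤ 1 := yy_le_one h0 m
  have hz1' : 0 < ‖1 - z‖ := norm_pos_iff.2 (sub_ne_zero.2 hz1.symm)
  have hza : 0 < ‖z - cay y‖ := norm_pos_iff.2 (sub_ne_zero.2 hzm')
  have hxy : 0 < |w.re - y| := abs_pos.2 (sub_ne_zero.2 hx)
  have h1 : |w.re - y| ≤ ‖w - y‖ := by
    have := Complex.abs_re_le_norm (w - y)
    simpa using this
  have h2 : |w.im| ≤ ‖w - y‖ := by
    have := Complex.abs_im_le_norm (w - y)
    simpa using this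
  have h3 : ‖w‖ ≤ |w.re| + |w.im| := Complex.norm_le_abs_re_add_abs_im w
  have hwy : 0 < ‖w - y‖ := hxy.trans_le h1
  have h4 : ‖w‖ ≤ ‖w - y‖ * (|w.re| / |w.re - y| + 1) := by
    have : |w.re| ≤ ‖w - y‖ * (|w.re| / |w.re - y|) := by
      calc |w.re| = |w.re - y| * (|w.re| / |w.re - y|) := by field_simp
        _ ≤ ‖w - y‖ * (|w.re| / |w.re - y|) := by gcongr
    linarith
  have h5 := norm_den_le y hy0.le hy1
  have h6 : ‖1 - z‖ ≤ (2 * (|w.re| / |w.re - y| + 1)) * ‖z - cay y‖ := by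
    have h7 : ‖1 - z‖ * ‖w - y‖ ≤
        ((2 * (|w.re| / |w.re - y| + 1)) * ‖z - cay y‖) * ‖w - y‖ := by
      rw [hr]
      calc ‖w‖ * ‖(1 - y * Complex.I : ℂ)‖ * ‖z - cay y‖
          ≤ (‖w - y‖ * (|w.re| / |w.re - y| + 1)) * 2 * ‖z - cay y‖ := by gcongr
        _ = _ := by ring
    exact le_of_mul_le_mul_right h7 hwy
  rw [div_le_iff₀ hza]
  rw [mul_assoc, one_div_mul_eq_div, le_div_iff₀ hz1']
  linarith

theorem sep_concrete (h0 : 0 < α) (h1 : α < 1) [Nonempty (Idx α)] (z : ℂ) (hz1 : z ≠ 1)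
    (hza : ∀ m : Idx α, z ≠ cay (yy α m)) :
    ∃ n : Idx α, ∀ S : Finset (Idx α), n ∉ S →
      ∑ m ∈ S, (rho α m.1 ^ (1 - α) / 32) / ‖z - cay (yy α m)‖ ≤ (1 / 7680) / ‖1 - z‖ := by
  have hA := Ac_pos h0
  have hZ := Zc_nonneg (α := α)
  have hinv : 0 < 1 / α := by positivity
  have hMsum : ∀ S : Finset (Idx α), ∑ m ∈ S, M m ≤ Zc α / (2 * Ac α) := fun S =>
    ((summable_M h0 h1).sum_le_tsum S fun m _ => (M_pos m).le).trans (tsum_M_le h0 h1)
  by_cases hzm : 1 + z = 0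
  · obtain ⟨n⟩ := (inferInstance : Nonempty (Idx α))
    refine ⟨n, fun S _ => ?_⟩
    have hz : z = -1 := by linear_combination hzm
    subst hz
    have e : ‖(1 : ℂ) - (-1)‖ = 2 := by norm_num
    rw [e]
    have hd : ∀ m : Idx α, 1 / 2 ≤ ‖(-1 : ℂ) - cay (yy α m)‖ := by
      intro m
      have h2 := norm_one_sub_cay_le (yy α m) (yy_pos h0 m).le
      have h3 := yy_le h0 m
      have h4 := P_le_half m.1
      have h5 : (2 : ℝ) ≤ ‖(-1 : ℂ) - cay (yy α m)‖ + ‖1 - cay (yy α m)‖ := by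
        calc (2 : ℝ) = ‖((-1 : ℂ) - cay (yy α m)) - (1 - cay (yy α m))‖ := by
              have : ((-1 : ℂ) - cay (yy α m)) - (1 - cay (yy α m)) = -2 := by ring
              rw [this]; norm_num
          _ ≤ _ := norm_sub_le _ _
      linarith
    have hterm : ∀ m ∈ S, (rho α m.1 ^ (1 - α) / 32) / ‖(-1 : ℂ) - cay (yy α m)‖ ≤
        (1 / 16) * M m := by
      intro m _
      have hd' := hd m
      have hM := M_pos m
      rw [div_le_iff₀ (by linarith)]
      unfold M at hM ⊢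
      nlinarith
    calc _ ≤ ∑ m ∈ S, (1 / 16) * M m := Finset.sum_le_sum hterm
      _ = (1 / 16) * ∑ m ∈ S, M m := by rw [Finset.mul_sum]
      _ ≤ (1 / 16) * (Zc α / (2 * Ac α)) := by gcongr; exact hMsum S
      _ ≤ 1 / 7680 / 2 := by
        have : Zc α / (2 * Ac α) ≤ 1 / 960 := by
          rw [div_le_div_iff₀ (by positivity) (by norm_num)]
          unfold Ac
          nlinarith
        linarith
  · obtain ⟨n, hn⟩ := near_far h0 h1 (Complex.I * (1 - z) / (1 + z)).re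
    refine ⟨n, fun S hS => ?_⟩
    have hz1' : 0 < ‖1 - z‖ := norm_pos_iff.2 (sub_ne_zero.2 hz1.symm)
    have hterm : ∀ m ∈ S, (rho α m.1 ^ (1 - α) / 32) / ‖z - cay (yy α m)‖ ≤
        (1 / ‖1 - z‖) * ((1 / 16) * (9 * M m + M m * (if m.1 = n.1 then
          (4 * P n.1 / ell α n.1) * (1 / |((m.2 : ℕ) : ℝ) - ((n.2 : ℕ) : ℝ)|) else 0))) := by
      intro m hm
      have hmn : m ≠ n := fun h => hS (h ▸ hm)
      obtain ⟨hx, hb⟩ := hn m hmn
      have h2 := dist_bound h0 z hz1 hzm m (hza m) hx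
      have hM := M_pos m
      calc (rho α m.1 ^ (1 - α) / 32) / ‖z - cay (yy α m)‖
          = (M m / 32) * (1 / ‖z - cay (yy α m)‖) := by unfold M; ring
        _ ≤ (M m / 32) * ((1 / ‖1 - z‖) * (2 * ((8 + (if m.1 = n.1 then
          (4 * P n.1 / ell α n.1) * (1 / |((m.2 : ℕ) : ℝ) - ((n.2 : ℕ) : ℝ)|) else 0)) + 1))) := by
            refine mul_le_mul_of_nonneg_left (h2.trans ?_) (by positivity)
            gcongr
        _ = _ := by ring
    calc _ ≤ ∑ m ∈ S, (1 / ‖1 - z‖) * ((1 / 16) * (9 * M m + M m * (if m.1 = n.1 then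
          (4 * P n.1 / ell α n.1) * (1 / |((m.2 : ℕ) : ℝ) - ((n.2 : ℕ) : ℝ)|) else 0))) :=
          Finset.sum_le_sum hterm
      _ = (1 / ‖1 - z‖) * ((1 / 16) * (9 * ∑ m ∈ S, M m + ∑ m ∈ S, M m * (if m.1 = n.1 then
          (4 * P n.1 / ell α n.1) * (1 / |((m.2 : ℕ) : ℝ) - ((n.2 : ℕ) : ℝ)|) else 0))) := by
          rw [← Finset.mul_sum, ← Finset.mul_sum, Finset.sum_add_distrib, ← Finset.mul_sum]
      _ ≤ (1 / ‖1 - z‖) * ((1 / 16) * (9 * (Zc α / (2 * Ac α)) + 8 * (1 + 1 / α) / Ac α)) := by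
          gcongr
          · exact hMsum S
          · exact sum_block h0 h1 n S
      _ ≤ (1 / ‖1 - z‖) * ((1 / 16) * (1 / 480)) := by
          gcongr
          have e : 9 * (Zc α / (2 * Ac α)) + 8 * (1 + 1 / α) / Ac α =
              (9 / 2 * Zc α + 8 * (1 + 1 / α)) / Ac α := by
            field_simp
          rw [e, div_le_iff₀ hA]
          unfold Ac
          nlinarith
      _ = (1 / 7680) / ‖1 - z‖ := by ring

/-- The concrete configuration. -/
noncomputable def conf (h0 : 0 < α) (h1 : α < 1) [Nonempty (Idx α)] : Config (Idx α) α where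
  a m := cay (yy α m)
  ρ m := rho α m.1
  norm_a m := norm_cay _
  ρ_pos m := rho_pos _
  ρ_le m := rho_le_one h0 h1 _
  lo m := by
    rw [rho_rpow h0]
    exact (yy_ge h0 m).trans (norm_one_sub_cay_ge _ (yy_pos h0 m).le (yy_le_one h0 m))
  hi m := by
    rw [rho_rpow h0]
    have h2 := norm_one_sub_cay_le (yy α m) (yy_pos h0 m).le
    have h3 := yy_le h0 m
    linarith
  summ := summable_M h0 h1
  sep z _ hz1 hza := sep_concrete h0 h1 z hz1 hza

end Pool.Agent.LipPeak
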