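import Mathlib
import Pool.Agent.LipPeak.Sep2

/-!
# Divergence of the integral
-/

set_option autoImplicit false

open scoped ComplexConjugate Topology ENNReal
open Filter Set MeasureTheory

namespace Pool.Agent.LipPeak

variable {α : ℝ}

lemma arctan_sub_le {u v : ℝ} (h : u ≤ v) : Real.arctan v - Real.arctan u ≤ v - u := by
  have := Convex.norm_image_sub_le_of_norm_deriv_le (f := Real.arctan) (s := Set.univ) (x := u)
    (y := v) (C := 1) (fun x _ => Real.differentiable_arctan x) (fun x _ => ?_) convex_univ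
    (mem_univ _) (mem_univ _)
  · rw [one_mul, Real.norm_eq_abs, Real.norm_eq_abs, abs_of_nonneg (sub_nonneg.2 h)] at this
    exact (le_abs_self _).trans this
  · rw [Real.deriv_arctan, Real.norm_eq_abs, abs_of_pos (by positivity), div_le_one (by positivity)]
    nlinarith [sq_nonneg x]

lemma le_arctan_sub {u v : ℝ} (hu : 0 ≤ u) (h : u ≤ v) (hv : v ≤ 1) :
    (v - u) / 2 ≤ Real.arctan v - Real.arctan u := by
  have := Convex.mul_sub_le_image_sub_of_le_deriv (f := Real.arctan) (D := Set.Icc 0 1)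
    (convex_Icc 0 1) Real.continuous_arctan.continuousOn
    Real.differentiable_arctan.differentiableOn (C := 1 / 2) (fun x hx => ?_) u
    ⟨hu, h.trans hv⟩ v ⟨hu.trans h, hv⟩ h
  · linarith
  · rw [interior_Icc] at hx
    rw [Real.deriv_arctan]
    apply one_div_le_one_div_of_le (by positivity)
    nlinarith [hx.1, hx.2]

lemma exp_arctan (y : ℝ) : Complex.exp ((2 * Real.arctan y : ℝ) * Complex.I) = cay y := by
  have hd := den_ne y
  have hs : (0 : ℝ) < 1 + y ^ 2 := by positivity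
  have hsq : (0 : ℝ) < Real.sqrt (1 + y ^ 2) := Real.sqrt_pos.2 hs
  have h1 : Complex.exp ((Real.arctan y : ℝ) * Complex.I) =
      (1 + y * Complex.I) / (Real.sqrt (1 + y ^ 2) : ℝ) := by
    rw [Complex.exp_mul_I, ← Complex.ofReal_cos, ← Complex.ofReal_sin, Real.cos_arctan,
      Real.sin_arctan]
    push_cast
    ring
  have h2 : ((2 * Real.arctan y : ℝ) * Complex.I : ℂ) =
      (Real.arctan y : ℝ) * Complex.I + (Real.arctan y : ℝ) * Complex.I := by
    push_cast; ring
  have h3 : ((Real.sqrt (1 + y ^ 2) : ℝ) : ℂ) * ((Real.sqrt (1 + y ^ 2) : ℝ) : ℂ) =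
      (1 + y * Complex.I) * (1 - y * Complex.I) := by
    rw [← Complex.ofReal_mul, Real.mul_self_sqrt hs.le]
    push_cast
    linear_combination (y : ℂ) ^ 2 * Complex.I_sq
  have hne : (1 + y * Complex.I : ℂ) ≠ 0 := by
    intro h
    have := congrArg Complex.re h
    simp at this
  rw [h2, Complex.exp_add, h1, div_mul_div_comm, h3, cay]
  field_simp

lemma ell_div_P (h0 : 0 < α) (k : ℕ) : ell α k / P k =
    Ac α * ((((k + 1 : ℕ) : ℝ)) * (((1 / 2 : ℝ) ^ (1 - α)) ^ (k + 1))) ^ (1 / α) := by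
  have hP := P_pos k
  have hk : (0 : ℝ) ≤ ((k + 1 : ℕ) : ℝ) := Nat.cast_nonneg _
  have e : rho α k / P k = (((1 / 2 : ℝ) ^ (1 - α)) ^ (k + 1)) ^ (1 / α) := by
    rw [← rho_one_sub h0, rho, P, ← Real.rpow_natCast, ← Real.rpow_natCast]
    rw [← Real.rpow_mul (by positivity), ← Real.rpow_mul (by positivity),
      ← Real.rpow_mul (by positivity), ← Real.rpow_mul (by positivity)]
    congr 1
    ring
  rw [Real.mul_rpow hk (by positivity), ← e]
  unfold ell
  push_cast
  ring

lemma eventually_ell (h0 : 0 < α) (h1 : α < 1) : ∀ᶠ k in atTop, ell α k ≤ P k / 8 := by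
  have hr1 : ((1 : ℝ) / 2) ^ (1 - α) < 1 :=
    Real.rpow_lt_one (by norm_num) (by norm_num) (by linarith)
  have h2 := tendsto_self_mul_const_pow_of_lt_one
    (Real.rpow_nonneg (by norm_num : (0 : ℝ) ≤ 1 / 2) (1 - α)) hr1
  have h3 := (tendsto_add_atTop_iff_nat 1).2 h2
  have h4 : Tendsto (fun k : ℕ => ((((k + 1 : ℕ) : ℝ)) *
      (((1 / 2 : ℝ) ^ (1 - α)) ^ (k + 1))) ^ (1 / α)) atTop (𝓝 ((0 : ℝ) ^ (1 / α))) :=
    (Real.continuousAt_rpow_const _ _ (Or.inr (by positivity))).tendsto.comp h3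
  rw [Real.zero_rpow (by positivity)] at h4
  have h5 := h4.const_mul (Ac α)
  rw [mul_zero] at h5
  have h6 := h5.eventually (ge_mem_nhds (show (0 : ℝ) < 1 / 8 by norm_num))
  filter_upwards [h6] with k hk
  rw [← ell_div_P h0, div_le_iff₀ (P_pos k)] at hk
  linarith

lemma NN_ge (h0 : 0 < α) {k : ℕ} (hk : ell α k ≤ P k / 8) :
    P k / 4 ≤ ((NN α k : ℝ) - 1) * ell α k := by
  have hℓ := ell_pos h0 k
  have h2 : P k / (2 * ell α k) < (NN α k : ℝ) + 1 := Nat.lt_floor_add_one _
  rw [div_lt_iff₀ (by positivity)] at h2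
  nlinarith

lemma NN_pos (h0 : 0 < α) {k : ℕ} (hk : ell α k ≤ P k / 8) : 0 < NN α k := by
  have h2 := NN_ge h0 hk
  have h3 := P_pos k
  have h4 := ell_pos h0 k
  by_contra hcon
  have : NN α k = 0 := by omega
  rw [this] at h2
  push_cast at h2
  nlinarith

lemma nonempty_Idx (h0 : 0 < α) (h1 : α < 1) : Nonempty (Idx α) := by
  obtain ⟨k, hk⟩ := (eventually_ell h0 h1).exists
  exact ⟨⟨k, ⟨0, NN_pos h0 hk⟩⟩⟩

/-- The interval spanned by the block `k`. -/
def J (α : ℝ) (k : ℕ) : Set ℝ :=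
  Set.Ioo (2 * Real.arctan (P k)) (2 * Real.arctan (P k + ((NN α k : ℝ) - 1) * ell α k))

lemma J_subset (h0 : 0 < α) (k : ℕ) :
    J α k ⊆ Set.Ioo (2 * Real.arctan (P k)) (2 * Real.arctan (3 / 2 * P k)) := by
  refine Set.Ioo_subset_Ioo_right ?_
  have h2 := NN_mul_le h0 k
  have h3 := ell_pos h0 k
  have : P k + ((NN α k : ℝ) - 1) * ell α k ≤ 3 / 2 * P k := by nlinarith
  have := Real.arctan_mono this
  linarith

lemma J_disjoint (h0 : 0 < α) : Pairwise (Function.onFun Disjoint (J α)) := by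
  have key : ∀ k k' : ℕ, k < k' → Disjoint (J α k) (J α k') := by
    intro k k' hk
    refine Set.disjoint_left.2 fun x hx hx' => ?_
    have a1 := (J_subset h0 k hx).1
    have a2 := (J_subset h0 k' hx').2
    have h3 := two_P_le hk
    have h4 := P_pos k'
    have : 3 / 2 * P k' ≤ P k := by linarith
    have := Real.arctan_mono this
    linarith
  intro k k' hk
  rcases lt_or_gt_of_ne hk with h | h
  · exact key _ _ h
  · exact (key _ _ h).symm

lemma J_subset_Ioc (k : ℕ) : J α k ⊆ Set.Ioc (-Real.pi) Real.pi := by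
  intro x hx
  have h1 := hx.1
  have h2 := hx.2
  have h3 := Real.arctan_lt_pi_div_two (P k + ((NN α k : ℝ) - 1) * ell α k)
  have h4 := Real.neg_pi_div_two_lt_arctan (P k)
  constructor <;> linarith

lemma infDist_le (h0 : 0 < α) (h1 : α < 1) [Nonempty (Idx α)] {k : ℕ} (hk : ell α k ≤ P k / 8)
    {θ : ℝ} (hθ : θ ∈ J α k) :
    Metric.infDist (Complex.exp (θ * Complex.I)) (conf h0 h1).E ≤ 2 * ell α k := by
  have hℓ := ell_pos h0 k
  have hP := P_pos k
  have hN := NN_pos h0 hk
  set y := Real.tan (θ / 2) with hy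
  have hlt := Real.arctan_lt_pi_div_two (P k + ((NN α k : ℝ) - 1) * ell α k)
  have hgt := Real.neg_pi_div_two_lt_arctan (P k)
  have hθ1 := hθ.1
  have hθ2 := hθ.2
  have hay : Real.arctan y = θ / 2 := Real.arctan_tan (by linarith) (by linarith)
  have hy1 : P k < y := by
    have : Real.arctan (P k) < Real.arctan y := by rw [hay]; linarith
    exact Real.arctan_strictMono.lt_iff_lt.1 this
  have hy2 : y < P k + ((NN α k : ℝ) - 1) * ell α k := by
    have : Real.arctan y < Real.arctan (P k + ((NN α k : ℝ) - 1) * ell α k) := by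
      rw [hay]; linarith
    exact Real.arctan_strictMono.lt_iff_lt.1 this
  -- the point below
  set j := ⌊(y - P k) / ell α k⌋₊ with hj
  have hq : 0 ≤ (y - P k) / ell α k := div_nonneg (by linarith) hℓ.le
  have hj1 : (j : ℝ) ≤ (y - P k) / ell α k := Nat.floor_le hq
  have hj2 : (y - P k) / ell α k < (j : ℝ) + 1 := Nat.lt_floor_add_one _
  rw [le_div_iff₀ hℓ] at hj1
  rw [div_lt_iff₀ hℓ] at hj2
  have hjN : j < NN α k := by
    have : (j : ℝ) * ell α k < ((NN α k : ℝ) - 1) * ell α k := by linarith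
    have h2 := lt_of_mul_lt_mul_right this hℓ.le
    have : (j : ℝ) < NN α k := by linarith
    exact_mod_cast this
  set m : Idx α := ⟨k, ⟨j, hjN⟩⟩ with hm
  have hym : yy α m = P k + j * ell α k := rfl
  have hmem : cay (yy α m) ∈ (conf h0 h1).E := Or.inr ⟨m, rfl⟩
  have h2 : Real.arctan y - Real.arctan (yy α m) ≤ y - yy α m :=
    arctan_sub_le (by rw [hym]; linarith)
  have h2' : 0 ≤ Real.arctan y - Real.arctan (yy α m) :=
    sub_nonneg.2 (Real.arctan_mono (by rw [hym]; linarith))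
  refine (Metric.infDist_le_dist_of_mem hmem).trans ?_
  rw [dist_eq_norm, ← exp_arctan (yy α m)]
  have e : Complex.exp (θ * Complex.I) - Complex.exp ((2 * Real.arctan (yy α m) : ℝ) * Complex.I) =
      Complex.exp ((2 * Real.arctan (yy α m) : ℝ) * Complex.I) *
        (Complex.exp (Complex.I * ((θ - 2 * Real.arctan (yy α m) : ℝ) : ℂ)) - 1) := by
    rw [mul_sub, ← Complex.exp_add, mul_one]
    congr 2
    push_cast; ring
  rw [e, norm_mul, Complex.norm_exp_ofReal_mul_I, one_mul]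
  refine (Real.norm_exp_I_mul_ofReal_sub_one_le).trans ?_
  rw [Real.norm_eq_abs, abs_of_nonneg (by linarith)]
  have h3 : y - yy α m ≤ ell α k := by rw [hym]; linarith
  linarith

lemma volume_exp_mem (h0 : 0 < α) (h1 : α < 1) [Nonempty (Idx α)] :
    volume ({θ : ℝ | Complex.exp (θ * Complex.I) ∈ (conf h0 h1).E} ∩ Set.Ioc (-Real.pi) Real.pi)
      = 0 := by
  apply Set.Countable.measure_zero
  have hE : (conf h0 h1).E.Countable := (Set.countable_range _).insert _
  have hinj : Set.InjOn (fun θ : ℝ => Complex.exp (θ * Complex.I))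
      ({θ : ℝ | Complex.exp (θ * Complex.I) ∈ (conf h0 h1).E} ∩ Set.Ioc (-Real.pi) Real.pi) := by
    intro x hx x' hx' h
    have h2 : Complex.arg (Complex.exp (x * Complex.I)) = Complex.arg (Complex.exp (x' * Complex.I)) := by
      simp only at h
      rw [h]
    rwa [Complex.arg_exp_mul_I, Complex.arg_exp_mul_I,
      (toIocMod_eq_self Real.two_pi_pos).2 ⟨hx.2.1, by linarith [hx.2.2]⟩,
      (toIocMod_eq_self Real.two_pi_pos).2 ⟨hx'.2.1, by linarith [hx'.2.2]⟩] at h2
  refine Set.countable_of_injective_of_countable_image hinj (hE.mono ?_)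
  rintro _ ⟨x, hx, rfl⟩
  exact hx.1

lemma term_ge (h0 : 0 < α) {k : ℕ} (hk : ell α k ≤ P k / 8) :
    (1 / 4 * (2 * Ac α) ^ (-α)) * (1 / ((k : ℝ) + 1)) ≤
      (2 * ell α k) ^ (-α) *
        (2 * Real.arctan (P k + ((NN α k : ℝ) - 1) * ell α k) - 2 * Real.arctan (P k)) := by
  have hA := Ac_pos h0
  have hP := P_pos k
  have hℓ := ell_pos h0 k
  have hρ := rho_pos (α := α) k
  have hk1 : (0 : ℝ) < (k : ℝ) + 1 := by positivity
  have e : (2 * ell α k) ^ (-α) = (2 * Ac α) ^ (-α) * (1 / ((k : ℝ) + 1)) * (1 / P k) := by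
    have e1 : 2 * ell α k = (2 * Ac α) * ((k : ℝ) + 1) ^ (1 / α) * rho α k := by
      unfold ell; ring
    rw [e1, Real.mul_rpow (by positivity) hρ.le, Real.mul_rpow (by positivity) (by positivity),
      ← Real.rpow_mul hk1.le, Real.rpow_neg hρ.le, rho_rpow h0]
    have e2 : 1 / α * -α = -1 := by field_simp
    rw [e2, Real.rpow_neg_one]
    ring
  have hN := NN_ge h0 hk
  have hNle := NN_mul_le h0 k
  have hPh := P_le_half k
  have h2 := le_arctan_sub (u := P k) (v := P k + ((NN α k : ℝ) - 1) * ell α k) hP.le (by linarith)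
    (by nlinarith)
  rw [e]
  calc (1 / 4 * (2 * Ac α) ^ (-α)) * (1 / ((k : ℝ) + 1))
      = (2 * Ac α) ^ (-α) * (1 / ((k : ℝ) + 1)) * (1 / P k) * (P k / 4) := by
        field_simp
    _ ≤ _ := by
        refine mul_le_mul_of_nonneg_left ?_ ?_
        · linarith
        · have := Real.rpow_pos_of_pos (show 0 < 2 * Ac α by positivity) (-α)
          positivity

theorem diverge (h0 : 0 < α) (h1 : α < 1) [Nonempty (Idx α)] :
    ∫⁻ θ in Set.Ioc (-Real.pi) Real.pi,
      ENNReal.ofReal (Metric.infDist (Complex.exp (θ * Complex.I)) (conf h0 h1).E ^ (-α)) = ⊤ := by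
  obtain ⟨k0, hk0⟩ := eventually_atTop.1 (eventually_ell h0 h1)
  set g : ℝ → ℝ≥0∞ := fun θ => ENNReal.ofReal
    (Metric.infDist (Complex.exp (θ * Complex.I)) (conf h0 h1).E ^ (-α)) with hg
  have hcl : IsClosed (conf h0 h1).E := ((conf h0 h1).isCompact_E h0 h1).isClosed
  have hne : (conf h0 h1).E.Nonempty := ⟨1, Or.inl rfl⟩
  set N : Set ℝ := {θ : ℝ | Complex.exp (θ * Complex.I) ∈ (conf h0 h1).E} ∩
    Set.Ioc (-Real.pi) Real.pi with hN
  have hterm : ∀ k, k0 ≤ k → ENNReal.ofReal ((1 / 4 * (2 * Ac α) ^ (-α)) * (1 / ((k : ℝ) + 1))) ≤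
      ∫⁻ θ in J α k, g θ := by
    intro k hk
    have hℓk := hk0 k hk
    have hℓ := ell_pos h0 k
    have hmeas : MeasurableSet (J α k \ N) := by
      refine MeasurableSet.diff measurableSet_Ioo (MeasurableSet.inter ?_ measurableSet_Ioc)
      exact (hcl.preimage (by fun_prop)).measurableSet
    have hvol : volume (J α k \ N) = ENNReal.ofReal
        (2 * Real.arctan (P k + ((NN α k : ℝ) - 1) * ell α k) - 2 * Real.arctan (P k)) := by
      rw [measure_sdiff_null (volume_exp_mem h0 h1), J, Real.volume_Ioo]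
    calc ENNReal.ofReal ((1 / 4 * (2 * Ac α) ^ (-α)) * (1 / ((k : ℝ) + 1)))
        ≤ ENNReal.ofReal ((2 * ell α k) ^ (-α) *
        (2 * Real.arctan (P k + ((NN α k : ℝ) - 1) * ell α k) - 2 * Real.arctan (P k))) :=
          ENNReal.ofReal_le_ofReal (term_ge h0 hℓk)
      _ = ∫⁻ _ in J α k \ N, ENNReal.ofReal ((2 * ell α k) ^ (-α)) := by
          rw [setLIntegral_const, hvol, ENNReal.ofReal_mul (by positivity)]
      _ ≤ ∫⁻ θ in J α k \ N, g θ := by
          refine setLIntegral_mono' hmeas fun θ hθ => ?_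
          refine ENNReal.ofReal_le_ofReal ?_
          have hnot : Complex.exp (θ * Complex.I) ∉ (conf h0 h1).E := fun h =>
            hθ.2 ⟨h, J_subset_Ioc k hθ.1⟩
          have hpos : 0 < Metric.infDist (Complex.exp (θ * Complex.I)) (conf h0 h1).E :=
            (hcl.notMem_iff_infDist_pos hne).1 hnot
          exact Real.rpow_le_rpow_of_nonpos hpos (infDist_le h0 h1 hℓk hθ.1) (by linarith)
      _ ≤ ∫⁻ θ in J α k, g θ := lintegral_mono_set sdiff_subset
  have hsum : ∑' k, ∫⁻ θ in J α k, g θ = ⊤ := by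
    by_contra hcon
    have h2 := ENNReal.summable_toReal hcon
    have hfin : ∀ k, ∫⁻ θ in J α k, g θ ≠ ⊤ := ENNReal.ne_top_of_tsum_ne_top hcon
    have h3 : Summable fun k : ℕ => (∫⁻ θ in J α (k + k0), g θ).toReal :=
      (summable_nat_add_iff k0).2 h2
    have hc : 0 < 1 / 4 * (2 * Ac α) ^ (-α) := by
      have := Real.rpow_pos_of_pos (show 0 < 2 * Ac α by have := Ac_pos h0; positivity) (-α)
      positivity
    have h4 : Summable fun k : ℕ => (1 / 4 * (2 * Ac α) ^ (-α)) * (1 / (((k + k0 : ℕ) : ℝ) + 1)) := by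
      refine Summable.of_nonneg_of_le (fun k => by positivity) (fun k => ?_) h3
      have h5 := ENNReal.toReal_mono (hfin (k + k0)) (hterm (k + k0) (by omega))
      rwa [ENNReal.toReal_ofReal (by positivity)] at h5
    rw [summable_mul_left_iff hc.ne'] at h4
    have h6 : Summable fun k : ℕ => 1 / ((k : ℝ) + 1) :=
      (summable_nat_add_iff k0).1 h4
    have h7 : Summable fun k : ℕ => 1 / (k : ℝ) := by
      refine (summable_nat_add_iff 1).1 ?_
      simpa using h6
    exact Real.not_summable_one_div_natCast h7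
  have hJm : ∀ k, MeasurableSet (J α k) := fun k => measurableSet_Ioo
  rw [← lintegral_iUnion hJm (J_disjoint h0)] at hsum
  refine top_unique ?_
  rw [← hsum]
  exact lintegral_mono_set (Set.iUnion_subset fun k => J_subset_Ioc k)

end Pool.Agent.LipPeak
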